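import Pool.Agent.LevelPseudo.Defs
import Pool.Agent.LevelLower.Realise2

/-!
# Curves over the whole line are a special case of arcs
-/

namespace LevelPseudo

open LevelLower

variable {s n : ℕ} {f : Fin n → ℝ → ℝ}

/-- the abscissas of all vertices -/
theorem absc_finite (h : ∀ i j, i ≠ j → (common f i j).encard ≤ s) :
    (⋃ i, ⋃ j, if i ≠ j then common f i j else ∅).Finite := by
  refine Set.finite_iUnion fun i => Set.finite_iUnion fun j => ?_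
  split_ifs with hij
  · exact Set.finite_of_encard_le_coe (h i j hij)
  · exact Set.finite_empty

/-- the restriction of the curves to a closed interval -/
def restr (f : Fin n → ℝ → ℝ) (hf : ∀ i, Continuous (f i)) (R : ℝ) (hR : 0 < R) (i : Fin n) :
    XArc := ⟨-R, R, by linarith, f i, (hf i).continuousOn⟩

theorem restr_intersecting (hf : ∀ i, Continuous (f i))
    (h : ∀ i j, i ≠ j → (common f i j).encard ≤ s) (R : ℝ) (hR : 0 < R) :
    Intersecting s (restr f hf R hR) := by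
  intro i j hij
  refine le_trans ?_ (h i j hij)
  have hinj : Set.InjOn (Prod.fst : ℝ × ℝ → ℝ)
      ((restr f hf R hR i).graph ∩ (restr f hf R hR j).graph) := by
    rintro ⟨x, y⟩ ⟨⟨-, h1⟩, -⟩ ⟨x', y'⟩ ⟨⟨-, h2⟩, -⟩ hxx
    simp only at hxx
    subst hxx
    simp only [restr] at h1 h2
    rw [h1, h2]
  rw [← hinj.encard_image]
  refine Set.encard_le_encard ?_
  rintro x ⟨⟨x', y⟩, ⟨⟨-, h1⟩, -, h2⟩, rfl⟩
  simp only [restr] at h1 h2
  exact h1.symm.trans h2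

/-- A family of curves over the whole line is at most as complex as arcs. -/
theorem psiT_le_Psi (hf : ∀ i, Continuous (f i))
    (h : ∀ i j, i ≠ j → (common f i j).encard ≤ s) {k : ℕ} (hk : k < n) :
    psiT f k ≤ Psi s n := by
  obtain ⟨B, hB⟩ := (absc_finite h).isBounded.exists_norm_le
  obtain ⟨R, hR⟩ : ∃ R, R = max B 0 + 1 := ⟨_, rfl⟩
  have hR0 : 0 < R := by rw [hR]; positivity
  have hBR : B < R := by rw [hR]; exact lt_of_le_of_lt (le_max_left _ _) (lt_add_one _)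
  have hint := restr_intersecting hf h R hR0
  refine le_trans ?_ (le_Psi2 hint hk)
  have hfin : (vertices (restr f hf R hR0) ∩ level (restr f hf R hR0) k).Finite :=
    (vertices_bound2 hint).1.subset Set.inter_subset_left
  refine Set.ncard_le_ncard ?_ hfin
  rintro p ⟨⟨i, j, hij, hi, hj⟩, hlev⟩
  have hp1 : p.1 ∈ common f i j := hi.symm.trans hj
  have hp2 : ‖p.1‖ ≤ B := by
    refine hB _ (Set.mem_iUnion.2 ⟨i, Set.mem_iUnion.2 ⟨j, ?_⟩⟩)
    rw [if_pos hij]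
    exact hp1
  have hp3 : -R < p.1 ∧ p.1 < R := abs_lt.1 (lt_of_le_of_lt hp2 hBR)
  have hIcc : p.1 ∈ Set.Icc (-R) R := ⟨hp3.1.le, hp3.2.le⟩
  refine ⟨Or.inr ⟨i, j, hij, ⟨hIcc, hi⟩, ⟨hIcc, hj⟩⟩, ?_⟩
  have hopen : IsOpen {q : ℝ × ℝ | q.1 ∈ Set.Ioo (-R) R} := isOpen_Ioo.preimage continuous_fst
  refine mem_closure_iff_nhds.2 fun U hU => ?_
  have hU' : U ∩ {q : ℝ × ℝ | q.1 ∈ Set.Ioo (-R) R} ∈ nhds p :=
    Filter.inter_mem hU (hopen.mem_nhds hp3)
  obtain ⟨q, ⟨hqU, hqI⟩, ⟨⟨i', hi'⟩, hcard⟩⟩ := mem_closure_iff_nhds.1 hlev _ hU'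
  have hq : q.1 ∈ Set.Icc (-R) R := ⟨le_of_lt hqI.1, le_of_lt hqI.2⟩
  refine ⟨q, hqU, ⟨i', hq, hi'⟩, ?_⟩
  rw [← hcard]
  congr 1
  ext c
  exact ⟨fun hc => hc.2, fun hc => ⟨hq, hc⟩⟩

theorem PsiT_set_bdd (s n : ℕ) : BddAbove {m : ℕ | ∃ f : Fin n → ℝ → ℝ,
    (∀ i, Continuous (f i)) ∧ (∀ i j, i ≠ j → (common f i j).encard ≤ s) ∧
    ∃ k < n, psiT f k = m} := by
  refine ⟨Psi s n, ?_⟩
  rintro m ⟨f, h1, h2, k, hk, rfl⟩
  exact psiT_le_Psi h1 h2 hk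

theorem le_PsiT (hf : ∀ i, Continuous (f i))
    (h : ∀ i j, i ≠ j → (common f i j).encard ≤ s) {k : ℕ} (hk : k < n) :
    psiT f k ≤ PsiT s n :=
  le_csSup (PsiT_set_bdd s n) ⟨f, hf, h, k, hk, rfl⟩

theorem PsiT_le_Psi (s n : ℕ) : PsiT s n ≤ Psi s n := by
  rcases Set.eq_empty_or_nonempty {m : ℕ | ∃ f : Fin n → ℝ → ℝ,
    (∀ i, Continuous (f i)) ∧ (∀ i j, i ≠ j → (common f i j).encard ≤ s) ∧
    ∃ k < n, psiT f k = m} with h | h
  · have : PsiT s n = 0 := by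
      unfold PsiT
      rw [h]
      simp
    omega
  · refine csSup_le h ?_
    rintro m ⟨f, h1, h2, k, hk, rfl⟩
    exact psiT_le_Psi h1 h2 hk

end LevelPseudo
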