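import Pool.Agent.LevelPseudo.RecSeq
import Pool.Agent.LevelRec.FinalInf

/-!
# Sequences of sets from the fractal seeds
-/

namespace LevelPseudo

open LevelLower LevelRec

theorem frac_kseq (l : ℕ) (hl : 1 ≤ l) {a b : ℕ} (hb : 0 < b)
    (h : (2 * l + 3) * a < (3 * l + 1) * b) :
    ∃ n₀ : ℕ, ∀ n ≥ n₀, ∃ N : ℕ, 1 ≤ N ∧ (n : ℝ) ^ ((a : ℝ) / b) ≤ N ∧
      KSeq (4 * l - 1) n N := by
  obtain ⟨k, hk⟩ := exists_pred_pow l
  have hS := seed_seedF l hl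
  have hsys : ∀ K, ∃ T, 4 ^ l * (2 ^ (3 * l + 1)) ^ K ≤ T ∧
      KSeq (4 * l - 1) (4 * 2 ^ l * (2 ^ (2 * l + 3)) ^ K) T := by
    intro K
    obtain ⟨T, h1, h2⟩ := rec_kseq (q := 1) (m' := 2 ^ l) (X := 4 * 2 ^ l) (w := 2 ^ l)
      (c0 := k) (c1 := k) (N₀ := 4 * k ^ 2 + 4 * k + 2) (N₁ := 2 ^ l) hS (by ring)
      (by positivity) (by norm_num) (by positivity) (by omega) le_rfl (by omega)
      (by
        have e : 2 * 2 ^ l - 1 = 2 * k + 1 := by omega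
        rw [e, hk]
        apply le_of_eq
        ring)
      (by
        have e : 2 * 2 ^ l - 1 = 2 * k + 1 := by omega
        rw [e, hk]
        nlinarith [sq_nonneg (k + 1)])
      (odd_sg hl)
      (by
        have : 0 < 2 ^ l := by positivity
        omega) K
    rw [countP_seedF] at h1
    refine ⟨T, ?_, ?_⟩
    · have e : (4 * 2 ^ l - 2 * 2 ^ l) * 4 ^ l = 2 ^ (3 * l + 1) := by
        have e1 : 4 * 2 ^ l - 2 * 2 ^ l = 2 * 2 ^ l := by omega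
        rw [e1, show (4 : ℕ) = 2 ^ 2 by norm_num, ← pow_mul, ← pow_succ', ← pow_add]
        congr 1
        omega
      rwa [e] at h1
    · have e1 : 1 * (4 * l - 1 + 1) - 1 = 4 * l - 1 := by omega
      have e2 : 2 * (2 * 2 ^ l) = 4 * 2 ^ l := by ring
      have e3 : 2 * 2 ^ l * (4 * 2 ^ l) = 2 ^ (2 * l + 3) := by
        rw [pow_add, show 2 * l = l + l by ring, pow_add]
        ring
      rwa [e1, e2, e3] at h2
  refine growthK (s := 4 * l - 1) (by positivity) ?_ (by positivity) hsys hb ?_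
  · calc 2 = 2 ^ 1 := by norm_num
      _ ≤ 2 ^ (2 * l + 3) := Nat.pow_le_pow_right (by norm_num) (by omega)
  · rw [← pow_mul, ← pow_mul]
    exact Nat.pow_lt_pow_right (by norm_num) h

/-- the exponent tends to `3 / 2` with an error `O(1 / s)` -/
theorem kseq_fast (s : ℕ) (hs : 3 ≤ s) :
    ∃ n₀ : ℕ, ∀ n ≥ n₀, ∃ N : ℕ, 1 ≤ N ∧ (n : ℝ) ^ (3 / 2 - 7 / ((s : ℝ) + 3)) ≤ N ∧
      KSeq s n N := by
  obtain ⟨l, hl⟩ : ∃ l, l = (s + 1) / 4 := ⟨_, rfl⟩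
  have h1 : 1 ≤ l := by omega
  have h2 : 4 * l - 1 ≤ s := by omega
  have h3 : s ≤ 4 * l + 2 := by omega
  obtain ⟨d, hd⟩ : ∃ d, 3 * s = d + 5 := ⟨3 * s - 5, by omega⟩
  obtain ⟨n₀, hn₀⟩ := frac_kseq l h1 (a := d) (b := 2 * (s + 3)) (by omega) (by nlinarith)
  refine ⟨n₀, fun n hn => ?_⟩
  obtain ⟨N, a1, a2, a3⟩ := hn₀ n hn
  refine ⟨N, a1, ?_, a3.mono h2 le_rfl le_rfl⟩
  have e : (3 / 2 - 7 / ((s : ℝ) + 3)) = (d : ℝ) / ((2 * (s + 3) : ℕ) : ℝ) := by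
    have hd' : (3 : ℝ) * s = d + 5 := by exact_mod_cast hd
    have hpos : (s : ℝ) + 3 ≠ 0 := by positivity
    push_cast
    rw [div_sub_div _ _ two_ne_zero hpos]
    congr 1
    linarith
  rw [e]
  exact a2

end LevelPseudo
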