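import Pool.Agent.LevelPseudo.RecSeq
import Pool.Agent.LevelRate.Final

/-!
# Sequences of sets for the rate theorem
-/

namespace LevelPseudo

open LevelLower LevelRate

theorem kseq_of_heights {n N s k M : ℕ} (sz : Fin n → ℕ) (H : Fin n → ℕ → ℕ)
    (hle : ∀ τ, ∀ t ≤ N, H τ t ≤ sz τ) (hsum : ∀ t ≤ N, ∑ τ, H τ t = k)
    (hne : ∀ t < N, ∃ τ, H τ t ≠ H τ (t + 1))
    (hs : ∀ τ τ', τ < τ' → ∀ θ θ' : ℕ,
      ∃ p, Ph (fun t => vl θ (H τ t) - vl θ' (H τ' t)) 0 (N + 1) p (p + s))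
    (hM : ∑ τ, sz τ ≤ M) : KSeq s M N := by
  classical
  have key : KSeqC (HC sz 0) s N := by
    refine ⟨k, HS sz 0 H, fun t ht => ?_, fun t ht heq => ?_, fun a b hab => ?_⟩
    · rw [card_HS _ _ _ _ (fun τ => hle τ t ht), hsum t ht]
    · obtain ⟨τ, hτ⟩ := hne t ht
      have h1 : ∀ i : Fin (sz τ), ((i : ℕ) < H τ t ↔ (i : ℕ) < H τ (t + 1)) := fun i => by
        have := congrArg (fun S => (Sum.inl ⟨τ, i⟩ : HC sz 0) ∈ S) heq
        simpa only [mem_HS_inl, eq_iff_iff] using this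
      have h2 := hle τ t ht.le
      have h3 := hle τ (t + 1) ht
      rcases lt_or_gt_of_ne hτ with h | h
      · have := (h1 ⟨H τ t, lt_of_lt_of_le h h3⟩).2 h
        exact absurd this (lt_irrefl _)
      · have := (h1 ⟨H τ (t + 1), lt_of_lt_of_le h h2⟩).1 h
        exact absurd this (lt_irrefl _)
    · have hvl : ∀ (c : Σ τ : Fin n, Fin (sz τ)) (t : ℕ),
          (if (Sum.inl c : HC sz 0) ∈ HS sz 0 H t then (1 : ℤ) else 0)
            = vl c.2 (H c.1 t) := fun c t => by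
        simp only [mem_HS_inl, vl]
      rcases a with a | a
      swap
      · exact a.elim0
      rcases b with b | b
      swap
      · exact b.elim0
      obtain ⟨τ, θ⟩ := a
      obtain ⟨τ', θ'⟩ := b
      simp only [hvl]
      rcases lt_trichotomy τ τ' with h | h | h
      · exact hs τ τ' h θ θ'
      · subst h
        rcases le_total (θ : ℕ) (θ' : ℕ) with h' | h'
        · refine Ph_of_nonneg fun t _ _ => ?_
          unfold vl
          split_ifs <;> omega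
        · refine Ph_of_nonpos fun t _ _ => ?_
          unfold vl
          split_ifs <;> omega
      · obtain ⟨p, hp⟩ := hs τ' τ h θ' θ
        refine ⟨p + 1, ?_⟩
        have h1 := LevelRate.Ph_neg hp
        have e2 : (fun t => -(vl θ' (H τ' t) - vl θ (H τ t))) =
            fun t => vl θ (H τ t) - vl θ' (H τ' t) := by
          funext t; ring
        rw [e2] at h1
        exact h1.mono le_rfl (by omega)
  refine key.toFin ?_
  rw [Fintype.card_sum, Fintype.card_sigma]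
  simp only [Fintype.card_fin]
  omega

theorem rate_kseq (l : ℕ) (hl : 1 ≤ l) (K : ℕ) (hK : 1 ≤ K) (n : ℕ)
    (hn : 2 * (ce (2 ^ l) K).1 + 3 * (ce (2 ^ l) K).2 ≤ n) :
    KSeq (6 * l + 3) n ((4 ^ l) ^ K - 1) := by
  have h4 : 4 ≤ (4 ^ l) ^ K := by
    rw [← pow_mul]
    calc 4 = 4 ^ 1 := by norm_num
      _ ≤ 4 ^ (l * K) := Nat.pow_le_pow_right (by norm_num) (Nat.mul_pos hl hK)
  exact kseq_of_heights (N := (4 ^ l) ^ K - 1) (s := 6 * l + 3)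
    (k := ∑ τ, hh l K τ 0) (M := n) (LevelRate.hs l K) (hh l K)
    (fun τ t ht => hh_le hl (by omega) τ) (fun t ht => sum_hh hl (by omega))
    (fun t ht => hh_ne hl hK (by omega))
    (fun τ τ' hτ θ θ' => hh_pair hl (by omega) hτ θ θ') (sum_hs.trans hn)

theorem rate_growthK (l : ℕ) (hl : 2 ≤ l) :
    ∃ n₀ : ℕ, ∀ n ≥ n₀, ∃ N : ℕ, 1 ≤ N ∧
      (n : ℝ) ^ (((40 * l : ℕ) : ℝ) / ((20 * l + 61 : ℕ) : ℝ)) ≤ N ∧ KSeq (6 * l + 3) n N := by
  have hq : (2 : ℕ) ^ l = 4 * 2 ^ (l - 2) := by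
    obtain ⟨k, rfl⟩ := Nat.exists_eq_add_of_le hl
    rw [pow_add, Nat.add_sub_cancel_left]
    norm_num
  have hq1 : 1 ≤ 2 ^ (l - 2) := Nat.one_le_two_pow
  refine growthK (s := 6 * l + 3) (h := 4 * (33 * 2 ^ (l - 2))) (H := 33 * 2 ^ (l - 2))
    (R := 4 ^ l) (C := 1) Nat.one_pos (by omega) (by positivity) ?_ (by omega)
    (numer l hl)
  intro K
  have h1 := ce_bound (2 ^ (l - 2)) (K + 1)
  rw [← hq] at h1
  have h3 := rate_kseq l (by omega) (K + 1) (by omega)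
    (4 * (33 * 2 ^ (l - 2)) * (33 * 2 ^ (l - 2)) ^ K) (by
      rw [pow_succ] at h1
      nlinarith [h1])
  refine ⟨(4 ^ l) ^ (K + 1) - 1, ?_, h3⟩
  have h4 : 2 ≤ 4 ^ l := by
    calc 2 ≤ 4 ^ 1 := by norm_num
      _ ≤ 4 ^ l := Nat.pow_le_pow_right (by norm_num) (by omega)
  have h5 : 1 ≤ (4 ^ l) ^ K := Nat.one_le_pow _ _ (by omega)
  have h6 : (4 ^ l) ^ (K + 1) = (4 ^ l) ^ K * 4 ^ l := pow_succ _ _
  have h7 : (4 ^ l) ^ K * 2 ≤ (4 ^ l) ^ K * 4 ^ l := Nat.mul_le_mul_left _ h4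
  omega

/-- **The rate theorem for sequences of sets.** -/
theorem kseq_rate (s : ℕ) (hs : 15 ≤ s) :
    ∃ n₀ : ℕ, ∀ n ≥ n₀, ∃ N : ℕ, 1 ≤ N ∧ (n : ℝ) ^ (2 - 37 / ((s : ℝ) + 10)) ≤ N ∧
      KSeq s n N := by
  obtain ⟨l, hl, h1, h2⟩ : ∃ l, 2 ≤ l ∧ 6 * l + 3 ≤ s ∧ s ≤ 6 * l + 8 :=
    ⟨(s - 3) / 6, by omega, by omega, by omega⟩
  obtain ⟨n₀, h⟩ := rate_growthK l hl
  refine ⟨max n₀ 1, fun n hn => ?_⟩
  obtain ⟨N, hN1, hN2, hN3⟩ := h n (le_of_max_le_left hn)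
  refine ⟨N, hN1, le_trans ?_ hN2, hN3.mono h1 le_rfl le_rfl⟩
  have hn1 : (1 : ℝ) ≤ n := by exact_mod_cast le_of_max_le_right hn
  apply Real.rpow_le_rpow_of_exponent_le hn1
  have hs0 : (0 : ℝ) < (s : ℝ) + 10 := by positivity
  have hl0 : (0 : ℝ) < ((20 * l + 61 : ℕ) : ℝ) := by positivity
  rw [sub_le_iff_le_add, ← sub_le_iff_le_add', le_div_iff₀ hs0]
  have h3 : (s : ℝ) ≤ 6 * l + 8 := by exact_mod_cast h2
  have h4 : (2 : ℝ) - ((40 * l : ℕ) : ℝ) / ((20 * l + 61 : ℕ) : ℝ) = 122 / (20 * l + 61) := by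
    push_cast
    field_simp
    ring
  rw [h4, div_mul_eq_mul_div, div_le_iff₀ (by positivity)]
  have h5 : (0 : ℝ) ≤ l := Nat.cast_nonneg l
  nlinarith

end LevelPseudo
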