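import Pool.Agent.LevelPseudo.Total
import Pool.Agent.LevelPseudo.Compare
import Pool.Agent.LevelPseudo.RateSeq
import Pool.Agent.LevelPseudo.FracSeq

/-!
# Lower bounds for levels in arrangements of curves over the whole line
-/

namespace LevelPseudo

open LevelLower

theorem Crosses.common {n : ℕ} {f : Fin n → ℝ → ℝ} {i j : Fin n} {x : ℝ}
    (h : Crosses (f i) (f j) x) : common f i j = {x} := by
  obtain ⟨h1, h2⟩ := h
  ext y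
  rw [Set.mem_singleton_iff]
  constructor
  · intro hy
    have hy' : f i y = f j y := hy
    by_contra hne
    rcases lt_or_gt_of_ne hne with h | h
    · rcases h2 with ⟨a, -⟩ | ⟨a, -⟩
      · exact absurd hy' (a y h).ne
      · exact absurd hy' (a y h).ne'
    · rcases h2 with ⟨-, a⟩ | ⟨-, a⟩
      · exact absurd hy' (a y h).ne'
      · exact absurd hy' (a y h).ne
  · rintro rfl
    exact h1

/-- pseudolines -/
theorem main_lines : ∃ n₀ : ℕ, ∀ n ≥ n₀,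
    (∃ f : Fin n → ℝ → ℝ, (∀ i, Continuous (f i)) ∧
      (∀ i j, i ≠ j → ∃ x, Crosses (f i) (f j) x) ∧
      ∃ k < n, (n : ℝ) ^ (8 / 7 : ℝ) ≤ psiT f k) ∧
    ∀ s ≥ 1, (n : ℝ) ^ (8 / 7 : ℝ) ≤ Psi s n := by
  obtain ⟨n₀, h⟩ := kseq_one
  refine ⟨n₀, fun n hn => ?_⟩
  obtain ⟨N, h1, h2, h3⟩ := h n hn
  obtain ⟨f, f1, f2, k, hk, f3⟩ := lines_of_seq h3 h1
  have h4 : (n : ℝ) ^ (8 / 7 : ℝ) ≤ psiT f k := h2.trans (by exact_mod_cast f3)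
  refine ⟨⟨f, f1, f2, k, hk, h4⟩, fun s hs => h4.trans ?_⟩
  have hs' : ∀ i j, i ≠ j → (common f i j).encard ≤ s := by
    intro i j hij
    obtain ⟨x, hx⟩ := f2 i j hij
    rw [hx.common, Set.encard_singleton]
    exact_mod_cast hs
  exact_mod_cast psiT_le_Psi f1 hs' hk

theorem total_bound {s n N : ℕ} {e : ℝ} (h1 : 1 ≤ N) (h2 : (n : ℝ) ^ e ≤ N)
    (h3 : KSeq s n N) : (n : ℝ) ^ e ≤ PsiT s n ∧ PsiT s n ≤ Psi s n := by
  obtain ⟨f, f1, f2, k, hk, f3⟩ := total_of_seq h3 h1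
  exact ⟨h2.trans (by exact_mod_cast f3.trans (le_PsiT f1 f2 hk)), PsiT_le_Psi s n⟩

/-- the rate theorem -/
theorem main_rateT (s : ℕ) (hs : 15 ≤ s) : ∃ n₀ : ℕ, ∀ n ≥ n₀,
    (n : ℝ) ^ (2 - 37 / ((s : ℝ) + 10)) ≤ PsiT s n ∧ PsiT s n ≤ Psi s n := by
  obtain ⟨n₀, h⟩ := kseq_rate s hs
  refine ⟨n₀, fun n hn => ?_⟩
  obtain ⟨N, h1, h2, h3⟩ := h n hn
  exact total_bound h1 h2 h3

/-- the bound with exponent near `3 / 2` -/
theorem main_fastT (s : ℕ) (hs : 3 ≤ s) : ∃ n₀ : ℕ, ∀ n ≥ n₀,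
    (n : ℝ) ^ (3 / 2 - 7 / ((s : ℝ) + 3)) ≤ PsiT s n ∧ PsiT s n ≤ Psi s n := by
  obtain ⟨n₀, h⟩ := kseq_fast s hs
  refine ⟨n₀, fun n hn => ?_⟩
  obtain ⟨N, h1, h2, h3⟩ := h n hn
  exact total_bound h1 h2 h3

end LevelPseudo
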