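import Mathlib

/-!
# Levels in arrangements of graphs of functions on the whole line: definitions
-/

namespace LevelPseudo

/-- the abscissas of the common points of two curves of a family of graphs of functions -/
def common {n : ℕ} (f : Fin n → ℝ → ℝ) (i j : Fin n) : Set ℝ := {x | f i x = f j x}

/-- The `k`-level: the closure of the set of points lying on some curve with exactly `k` curves
strictly below. -/
def levelT {n : ℕ} (f : Fin n → ℝ → ℝ) (k : ℕ) : Set (ℝ × ℝ) :=
  closure {p | (∃ i, p.2 = f i p.1) ∧ {i | f i p.1 < p.2}.ncard = k}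

/-- the vertices of the arrangement: the common points of two curves -/
def verticesT {n : ℕ} (f : Fin n → ℝ → ℝ) : Set (ℝ × ℝ) :=
  {p | ∃ i j, i ≠ j ∧ p.2 = f i p.1 ∧ p.2 = f j p.1}

/-- the complexity of the `k`-level: the number of vertices lying on it -/
noncomputable def psiT {n : ℕ} (f : Fin n → ℝ → ℝ) (k : ℕ) : ℕ :=
  (verticesT f ∩ levelT f k).ncard

/-- The graphs of `g` and `h` have exactly one common point, the one with abscissa `x₀`, and they
cross there. -/
def Crosses (g h : ℝ → ℝ) (x₀ : ℝ) : Prop :=
  g x₀ = h x₀ ∧ (((∀ x < x₀, g x < h x) ∧ ∀ x > x₀, h x < g x) ∨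
    ((∀ x < x₀, h x < g x) ∧ ∀ x > x₀, g x < h x))

/-- The maximum complexity of a level over all families of `n` continuous functions on the line
every two of which agree at at most `s` points. -/
noncomputable def PsiT (s n : ℕ) : ℕ :=
  sSup {m : ℕ | ∃ f : Fin n → ℝ → ℝ, (∀ i, Continuous (f i)) ∧
    (∀ i j, i ≠ j → (common f i j).encard ≤ s) ∧ ∃ k < n, psiT f k = m}

end LevelPseudo
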