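import Pool.Agent.LevelPseudo.Curves
import Pool.Agent.LevelLower.Cert

/-!
# Sequences of sets: definitions
-/

namespace LevelPseudo

open LevelLower

/-- A sequence of `N + 1` sets of the same size, consecutive sets are different, and for every
pair of elements the difference of the indicators changes its sign at most `s` times. -/
def KSeq (s n N : ℕ) : Prop :=
  ∃ (k : ℕ) (S : ℕ → Finset (Fin n)), (∀ t ≤ N, (S t).card = k) ∧ (∀ t < N, S t ≠ S (t + 1)) ∧
    ∀ a b, a ≠ b → ∃ p, Ph (fun t => (if a ∈ S t then 1 else 0) - (if b ∈ S t then 1 else 0))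
      0 (N + 1) p (p + s)

/-- the same over any finite type -/
def KSeqC (C : Type) [DecidableEq C] (s N : ℕ) : Prop :=
  ∃ (k : ℕ) (S : ℕ → Finset C), (∀ t ≤ N, (S t).card = k) ∧ (∀ t < N, S t ≠ S (t + 1)) ∧
    ∀ a b, a ≠ b → ∃ p, Ph (fun t => (if a ∈ S t then 1 else 0) - (if b ∈ S t then 1 else 0))
      0 (N + 1) p (p + s)

theorem KSeqC.toFin {C : Type} [DecidableEq C] [Fintype C] {s n N : ℕ} (h : KSeqC C s N)
    (hn : Fintype.card C ≤ n) : KSeq s n N := by
  obtain ⟨k, S, h1, h2, h3⟩ := h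
  obtain ⟨e⟩ : Nonempty (C ↪ Fin n) := by
    rw [Function.Embedding.nonempty_iff_card_le, Fintype.card_fin]
    exact hn
  have hmem : ∀ (c : C) (t : ℕ), (e c ∈ (S t).map e ↔ c ∈ S t) := fun c t => by
    rw [Finset.mem_map' e]
  refine ⟨k, fun t => (S t).map e, fun t ht => ?_, fun t ht heq => ?_, fun a b hab => ?_⟩
  · rw [Finset.card_map, h1 t ht]
  · exact h2 t ht (Finset.map_injective e heq)
  · by_cases ha : ∃ c, e c = a
    · obtain ⟨c, rfl⟩ := ha
      by_cases hb : ∃ d, e d = b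
      · obtain ⟨d, rfl⟩ := hb
        obtain ⟨p, hp⟩ := h3 c d (fun h => hab (by rw [h]))
        refine ⟨p, ?_⟩
        simpa only [hmem] using hp
      · refine ⟨0, fun _ => 0, monotone_const, fun t => ⟨le_rfl, Nat.zero_le _⟩, fun t _ _ => ?_⟩
        have : b ∉ (S t).map e := fun h => by
          obtain ⟨d, -, hd⟩ := Finset.mem_map.1 h
          exact hb ⟨d, hd⟩
        simp only [this, if_false]
        split_ifs <;> norm_num
    · refine ⟨1, fun _ => 1, monotone_const, fun t => ⟨le_rfl, Nat.le_add_right _ _⟩,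
        fun t _ _ => ?_⟩
      have : a ∉ (S t).map e := fun h => by
        obtain ⟨d, -, hd⟩ := Finset.mem_map.1 h
        exact ha ⟨d, hd⟩
      simp only [this, if_false]
      split_ifs <;> norm_num

theorem KSeq.mono {s s' n n' N N' : ℕ} (h : KSeq s n N) (hs : s ≤ s') (hn : n ≤ n')
    (hN : N' ≤ N) : KSeq s' n' N' := by
  obtain ⟨k, S, h1, h2, h3⟩ := h
  have : KSeqC (Fin n) s' N' := ⟨k, S, fun t ht => h1 t (ht.trans hN),
    fun t ht => h2 t (lt_of_lt_of_le ht hN), fun a b hab => by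
      obtain ⟨p, φ, f1, f2, f3⟩ := h3 a b hab
      exact ⟨p, φ, f1, fun t => ⟨(f2 t).1, (f2 t).2.trans (by omega)⟩,
        fun t h0 ht => f3 t h0 (by omega)⟩⟩
  exact this.toFin (by simpa using hn)

end LevelPseudo
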