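import Pool.Agent.LevelPseudo.Defs
import Pool.Agent.LevelRec.Seed33

/-!
# Sequences of sets from traces
-/

namespace LevelPseudo

open LevelLower LevelRec

theorem ph_neg' {f : ℕ → ℤ} {t₀ t₁ a b : ℕ} (h : Ph f t₀ t₁ a b) :
    Ph (fun t => - f t) t₀ t₁ (a + 1) (b + 1) := by
  obtain ⟨φ, h1, h2, h3⟩ := h
  refine ⟨fun t => φ t + 1, fun x y hxy => by simpa using h1 hxy,
    fun t => ⟨by simpa using (h2 t).1, by simpa using (h2 t).2⟩, fun t ht ht' => ?_⟩
  have := h3 t ht ht'
  simp only [pow_succ]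
  linarith

/-- From a trace to a sequence of sets. -/
theorem toKSeq {V : Type} [DecidableEq V] {U W : Finset V} {L : List (V × V)} {s : ℕ}
    (hd : Disjoint U W) (hL : XT U W L) (lt : V → V → Prop)
    (htot : ∀ u v, (u ∈ U ∧ v ∈ U ∨ u ∈ W ∧ v ∈ W) → u ≠ v → lt u v ∨ lt v u)
    (hsame : ∀ u v, (u ∈ U ∧ v ∈ U ∨ u ∈ W ∧ v ∈ W) → lt u v → Crt U W L u v 1 (1 + s))
    (hcross : ∀ u ∈ U, ∀ v ∈ W, Crt U W L u v 1 (1 + s)) :
    KSeqC {c // c ∈ U ∪ W} s L.length := by
  classical
  obtain ⟨x0, hx0⟩ : ∃ x0 : V → ℤ, x0 = fun c => if c ∈ W then 1 else 0 := ⟨_, rfl⟩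
  have hxW : ∀ c ∈ W, x0 c = 1 := fun c hc => by rw [hx0]; exact if_pos hc
  have hxU : ∀ c ∈ U, x0 c = 0 := fun c hc => by
    rw [hx0]
    exact if_neg (Finset.disjoint_left.1 hd hc)
  have hini : Ini U W x0 := ⟨hxU, hxW⟩
  have h01 : ∀ c, x0 c = 0 ∨ x0 c = 1 := fun c => by
    rw [hx0]
    dsimp only
    split_ifs
    · exact Or.inr rfl
    · exact Or.inl rfl
  obtain ⟨hval, -⟩ := hL.ok x0 hini
  have hex : ∀ t < L.length, ∃ a b : {c // c ∈ U ∪ W},
      run x0 (L.take t) a = 0 ∧ run x0 (L.take (t + 1)) a = 1 ∧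
      run x0 (L.take t) b = 1 ∧ run x0 (L.take (t + 1)) b = 0 ∧
      ∀ c : {c // c ∈ U ∪ W}, c ≠ a → c ≠ b →
        run x0 (L.take (t + 1)) c = run x0 (L.take t) c := by
    intro t ht
    obtain ⟨h1, h2, h3⟩ := ts_valid_get x0 L hval t ht
    obtain ⟨h4, h5⟩ := hL.supp _ (List.getElem_mem ht)
    have hne : (L[t]).2 ≠ (L[t]).1 := fun h => by
      rw [h, h1] at h2
      norm_num at h2
    refine ⟨⟨(L[t]).1, Finset.mem_union.2 h4⟩, ⟨(L[t]).2, Finset.mem_union.2 h5⟩, h1, ?_, h2,
      ?_, ?_⟩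
    · rw [h3]
      simp [stp]
    · rw [h3]
      simp [stp, hne]
    · intro c hc1 hc2
      have hc1' : (c : V) ≠ (L[t]).1 := fun h => hc1 (Subtype.ext h)
      have hc2' : (c : V) ≠ (L[t]).2 := fun h => hc2 (Subtype.ext h)
      rw [h3]
      simp [stp, hc1', hc2']
  have hind : ∀ (c : {c // c ∈ U ∪ W}) (t : ℕ),
      (if c ∈ Finset.univ.filter (fun c : {c // c ∈ U ∪ W} => run x0 (L.take t) c = 1)
        then (1 : ℤ) else 0) = run x0 (L.take t) c := by
    intro c t
    simp only [Finset.mem_filter, Finset.mem_univ, true_and]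
    rcases ts_run_01 x0 h01 (L.take t) c with h | h
    · rw [h]; norm_num
    · rw [h]; norm_num
  refine ⟨(Finset.univ.filter (fun c : {c // c ∈ U ∪ W} => run x0 (L.take 0) c = 1)).card,
    fun t => Finset.univ.filter (fun c : {c // c ∈ U ∪ W} => run x0 (L.take t) c = 1),
    fun t => ?_, fun t ht heq => ?_, fun a b hab => ?_⟩
  · induction t with
    | zero => exact fun _ => rfl
    | succ t ih =>
      intro ht
      refine Eq.trans ?_ (ih (by omega))
      obtain ⟨a, b, h1, h2, h3, h4, h5⟩ := hex t (by omega)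
      have hab : a ≠ b := fun h => by rw [h, h3] at h1; norm_num at h1
      have hb : b ∈ Finset.univ.filter
          (fun c : {c // c ∈ U ∪ W} => run x0 (L.take t) c = 1) := by simp [h3]
      have e : Finset.univ.filter (fun c : {c // c ∈ U ∪ W} => run x0 (L.take (t + 1)) c = 1) =
          insert a ((Finset.univ.filter
            (fun c : {c // c ∈ U ∪ W} => run x0 (L.take t) c = 1)).erase b) := by
        ext c
        simp only [Finset.mem_filter, Finset.mem_univ, true_and, Finset.mem_insert,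
          Finset.mem_erase]
        by_cases hca : c = a
        · subst hca
          simp [h2]
        · by_cases hcb : c = b
          · subst hcb
            simp [h4, hca]
          · rw [h5 c hca hcb]
            simp [hca, hcb]
      dsimp only
      rw [e, Finset.card_insert_of_notMem, Finset.card_erase_of_mem hb]
      · have := Finset.card_pos.2 ⟨b, hb⟩
        omega
      · simp [h1]
  · obtain ⟨a, b, h1, h2, h3, h4, h5⟩ := hex t ht
    have h6 : a ∈ Finset.univ.filter
        (fun c : {c // c ∈ U ∪ W} => run x0 (L.take (t + 1)) c = 1) := by simp [h2]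
    dsimp only at heq
    rw [← heq] at h6
    simp [h1] at h6
  · simp only [hind]
    have key : ∀ u v : V, (u ∈ U ∪ W) → v ∈ U ∪ W → u ≠ v → ∃ p,
        Ph (fun t => run x0 (L.take t) u - run x0 (L.take t) v) 0 (L.length + 1) p (p + s) := by
      intro u v hu hv huv
      have neg : (∃ p, Ph (fun t => run x0 (L.take t) v - run x0 (L.take t) u) 0
          (L.length + 1) p (p + s)) → ∃ p,
          Ph (fun t => run x0 (L.take t) u - run x0 (L.take t) v) 0 (L.length + 1) p (p + s) := by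
        rintro ⟨p, hp⟩
        have h1 := ph_neg' hp
        have e2 : (fun t => -(run x0 (L.take t) v - run x0 (L.take t) u)) =
            fun t => run x0 (L.take t) u - run x0 (L.take t) v := by
          funext t; ring
        rw [e2] at h1
        exact ⟨p + 1, h1.mono le_rfl (by omega)⟩
      rcases Finset.mem_union.1 hu with hu' | hu' <;> rcases Finset.mem_union.1 hv with hv' | hv'
      · rcases htot u v (Or.inl ⟨hu', hv'⟩) huv with h | h
        · exact ⟨1, ts_ph hini (hsame u v (Or.inl ⟨hu', hv'⟩) h)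
            (by rw [hxU _ hu', hxU _ hv']) odd_one⟩
        · exact neg ⟨1, ts_ph hini (hsame v u (Or.inl ⟨hv', hu'⟩) h)
            (by rw [hxU _ hu', hxU _ hv']) odd_one⟩
      · exact ⟨1, ts_ph hini (hcross u hu' v hv') (by rw [hxU _ hu', hxW _ hv']; norm_num) odd_one⟩
      · exact neg ⟨1, ts_ph hini (hcross v hv' u hu')
          (by rw [hxW _ hu', hxU _ hv']; norm_num) odd_one⟩
      · rcases htot u v (Or.inr ⟨hu', hv'⟩) huv with h | h
        · exact ⟨1, ts_ph hini (hsame u v (Or.inr ⟨hu', hv'⟩) h)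
            (by rw [hxW _ hu', hxW _ hv']) odd_one⟩
        · exact neg ⟨1, ts_ph hini (hsame v u (Or.inr ⟨hv', hu'⟩) h)
            (by rw [hxW _ hu', hxW _ hv']) odd_one⟩
    exact key a b a.2 b.2 (fun h => hab (Subtype.ext h))

end LevelPseudo
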