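import Pool.Agent.LevelPseudo.Defs

/-!
# Linear interpolation between heights
-/

namespace LevelPseudo

/-- the truncation to `[0, 1]` -/
def cl (y : ℝ) : ℝ := max 0 (min y 1)

theorem cl_cont : Continuous cl := by unfold cl; fun_prop

theorem cl_of_le {y : ℝ} (h : y ≤ 0) : cl y = 0 :=
  max_eq_left (min_le_of_left_le h)

theorem cl_of_ge {y : ℝ} (h : 1 ≤ y) : cl y = 1 := by
  unfold cl
  rw [min_eq_right h]
  exact max_eq_right zero_le_one

theorem cl_of_mem {y : ℝ} (h : 0 ≤ y) (h' : y ≤ 1) : cl y = y := by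
  unfold cl
  rw [min_eq_left h']
  exact max_eq_right h

variable {n : ℕ} {h : ℕ → Fin n → ℝ}

/-- the interpolation of the heights `h 0, ..., h M` -/
def ip (h : ℕ → Fin n → ℝ) (M : ℕ) (i : Fin n) (x : ℝ) : ℝ :=
  h 0 i + ∑ u ∈ Finset.range M, (h (u + 1) i - h u i) * cl (x - u)

theorem ip_cont (M : ℕ) (i : Fin n) : Continuous (ip h M i) := by
  unfold ip
  refine continuous_const.add (continuous_finsetSum _ fun u _ => continuous_const.mul ?_)
  exact cl_cont.comp (continuous_id.sub continuous_const)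

theorem ip_of_ge {M : ℕ} {i : Fin n} {x : ℝ} (hx : (M : ℝ) ≤ x) : ip h M i x = h M i := by
  unfold ip
  have : ∀ u ∈ Finset.range M, (h (u + 1) i - h u i) * cl (x - u) = h (u + 1) i - h u i := by
    intro u hu
    have h1 : (u : ℝ) + 1 ≤ M := by exact_mod_cast Finset.mem_range.1 hu
    rw [cl_of_ge (by linarith), mul_one]
  rw [Finset.sum_congr rfl this, Finset.sum_range_sub (fun u => h u i)]
  ring

theorem ip_of_le {M t : ℕ} (ht : t ≤ M) {i : Fin n} {x : ℝ} (hx : x ≤ t) :
    ip h M i x = ip h t i x := by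
  unfold ip
  congr 1
  symm
  apply Finset.sum_subset (Finset.range_mono ht)
  intro u _ hu
  have h1 : (t : ℝ) ≤ u := by
    have : t ≤ u := by simpa using hu
    exact_mod_cast this
  rw [cl_of_le (by linarith), mul_zero]

theorem ip_zero {M : ℕ} {i : Fin n} {x : ℝ} (hx : x ≤ 0) : ip h M i x = h 0 i := by
  rw [ip_of_le (Nat.zero_le M) (by simpa using hx)]
  simp [ip]

theorem ip_mid {M t : ℕ} (ht : t < M) {i : Fin n} {x : ℝ} (h1 : (t : ℝ) ≤ x) (h2 : x ≤ t + 1) :
    ip h M i x = h t i + (h (t + 1) i - h t i) * (x - t) := by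
  rw [ip_of_le (Nat.succ_le_of_lt ht) (by push_cast; exact h2)]
  unfold ip
  rw [Finset.sum_range_succ, ← add_assoc]
  congr 1
  · exact ip_of_ge h1
  · rw [cl_of_mem (by linarith) (by linarith)]

theorem ip_nat {M t : ℕ} (ht : t ≤ M) {i : Fin n} : ip h M i t = h t i := by
  rw [ip_of_le ht le_rfl, ip_of_ge le_rfl]

/-- the meeting point of `i` and `j` between the times `t` and `t + 1` -/
noncomputable def mp (h : ℕ → Fin n → ℝ) (i j : Fin n) (t : ℕ) : ℝ :=
  t + (h t i - h t j) / ((h t i - h t j) - (h (t + 1) i - h (t + 1) j))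

/-- the order of `i` and `j` changes between the times `t` and `t + 1` -/
def Chg (h : ℕ → Fin n → ℝ) (i j : Fin n) (t : ℕ) : Prop :=
  (h t i < h t j ∧ h (t + 1) j < h (t + 1) i) ∨ (h t j < h t i ∧ h (t + 1) i < h (t + 1) j)

theorem mp_mem {i j : Fin n} {t : ℕ} (hc : Chg h i j t) :
    (t : ℝ) < mp h i j t ∧ mp h i j t < t + 1 := by
  unfold mp
  rcases hc with ⟨h1, h2⟩ | ⟨h1, h2⟩
  · have hd : (h t i - h t j) - (h (t + 1) i - h (t + 1) j) < 0 := by linarith
    constructor
    · have := div_pos_of_neg_of_neg (show h t i - h t j < 0 by linarith) hd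
      linarith
    · have : (h t i - h t j) / ((h t i - h t j) - (h (t + 1) i - h (t + 1) j)) < 1 := by
        rw [div_lt_one_of_neg hd]
        linarith
      linarith
  · have hd : 0 < (h t i - h t j) - (h (t + 1) i - h (t + 1) j) := by linarith
    constructor
    · have := div_pos (show 0 < h t i - h t j by linarith) hd
      linarith
    · have : (h t i - h t j) / ((h t i - h t j) - (h (t + 1) i - h (t + 1) j)) < 1 := by
        rw [div_lt_one hd]
        linarith
      linarith

theorem mp_eq {M : ℕ} {i j : Fin n} {t : ℕ} (ht : t < M) (hc : Chg h i j t) :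
    ip h M i (mp h i j t) = ip h M j (mp h i j t) := by
  obtain ⟨h1, h2⟩ := mp_mem hc
  rw [ip_mid ht h1.le h2.le, ip_mid ht h1.le h2.le]
  have hd : (h t i - h t j) - (h (t + 1) i - h (t + 1) j) ≠ 0 := by
    rcases hc with ⟨h1, h2⟩ | ⟨h1, h2⟩
    · exact ne_of_lt (by linarith)
    · exact ne_of_gt (by linarith)
  have e : mp h i j t - t =
      (h t i - h t j) / ((h t i - h t j) - (h (t + 1) i - h (t + 1) j)) := by
    unfold mp; ring
  rw [e]
  field_simp
  ring

/-- the only possible meeting points -/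
theorem eq_mp {M : ℕ} (hinj : ∀ t ≤ M, Function.Injective (h t)) {i j : Fin n} (hij : i ≠ j)
    {t : ℕ} (ht : t < M) {x : ℝ} (h1 : (t : ℝ) ≤ x) (h2 : x ≤ t + 1)
    (hx : ip h M i x = ip h M j x) : Chg h i j t ∧ x = mp h i j t := by
  rw [ip_mid ht h1 h2, ip_mid ht h1 h2] at hx
  have n1 : h t i ≠ h t j := fun hh => hij (hinj t ht.le hh)
  have n2 : h (t + 1) i ≠ h (t + 1) j := fun hh => hij (hinj (t + 1) ht hh)
  obtain ⟨θ, hθ⟩ : ∃ θ, θ = x - t := ⟨_, rfl⟩
  rw [← hθ] at hx
  have t0 : 0 ≤ θ := by linarith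
  have t1 : θ ≤ 1 := by linarith
  have hx' : (1 - θ) * (h t i - h t j) + θ * (h (t + 1) i - h (t + 1) j) = 0 := by linarith
  have hc : Chg h i j t := by
    rcases lt_or_gt_of_ne n1 with a | a <;> rcases lt_or_gt_of_ne n2 with b | b
    · exfalso
      rcases eq_or_lt_of_le t0 with c | c
      · rw [← c] at hx'; linarith
      · nlinarith
    · exact Or.inl ⟨a, b⟩
    · exact Or.inr ⟨a, b⟩
    · exfalso
      rcases eq_or_lt_of_le t0 with c | c
      · rw [← c] at hx'; linarith
      · nlinarith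
  refine ⟨hc, ?_⟩
  have hd : (h t i - h t j) - (h (t + 1) i - h (t + 1) j) ≠ 0 := by
    rcases hc with ⟨h1, h2⟩ | ⟨h1, h2⟩
    · exact ne_of_lt (by linarith)
    · exact ne_of_gt (by linarith)
  have e : θ = (h t i - h t j) / ((h t i - h t j) - (h (t + 1) i - h (t + 1) j)) := by
    rw [eq_div_iff hd]
    linarith
  unfold mp
  rw [← e, hθ]
  ring

theorem common_sub {M : ℕ} (hinj : ∀ t ≤ M, Function.Injective (h t)) {i j : Fin n}
    (hij : i ≠ j) {x : ℝ} (hx : ip h M i x = ip h M j x) :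
    ∃ t < M, Chg h i j t ∧ x = mp h i j t := by
  rcases le_or_gt x 0 with h0 | h0
  · rw [ip_zero h0, ip_zero h0] at hx
    exact absurd (hinj 0 (Nat.zero_le _) hx) hij
  rcases le_or_gt (M : ℝ) x with h1 | h1
  · rw [ip_of_ge h1, ip_of_ge h1] at hx
    exact absurd (hinj M le_rfl hx) hij
  have h2 : ⌊x⌋₊ < M := (Nat.floor_lt h0.le).2 h1
  obtain ⟨h3, h4⟩ := eq_mp hinj hij h2 (Nat.floor_le h0.le) (Nat.lt_floor_add_one x).le hx
  exact ⟨_, h2, h3, h4⟩

open Classical in
theorem common_card {M : ℕ} (hinj : ∀ t ≤ M, Function.Injective (h t)) {i j : Fin n}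
    (hij : i ≠ j) : (common (ip h M) i j).encard ≤
      ((Finset.range M).filter (fun t => Chg h i j t)).card := by
  have hsub : common (ip h M) i j ⊆
      (((Finset.range M).filter (fun t => Chg h i j t)).image (mp h i j) : Finset ℝ) := by
    intro x hx
    obtain ⟨t, h1, h2, h3⟩ := common_sub hinj hij hx
    rw [Finset.coe_image]
    exact ⟨t, by simp [h1, h2], h3.symm⟩
  refine (Set.encard_le_encard hsub).trans ?_
  rw [Set.encard_coe_eq_coe_finsetCard]
  exact_mod_cast Finset.card_image_le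

open Classical in
theorem crosses {M : ℕ} (hinj : ∀ t ≤ M, Function.Injective (h t)) {i j : Fin n}
    (hij : i ≠ j) (h1 : ((Finset.range M).filter (fun t => Chg h i j t)).card = 1) :
    ∃ x, Crosses (ip h M i) (ip h M j) x := by
  obtain ⟨t, ht⟩ := Finset.card_eq_one.1 h1
  have ht' : t ∈ (Finset.range M).filter (fun t => Chg h i j t) := by rw [ht]; simp
  rw [Finset.mem_filter, Finset.mem_range] at ht'
  obtain ⟨htM, hc⟩ := ht'
  have huniq : ∀ x, ip h M i x = ip h M j x → x = mp h i j t := by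
    intro x hx
    obtain ⟨u, h2, h3, h4⟩ := common_sub hinj hij hx
    have : u ∈ (Finset.range M).filter (fun t => Chg h i j t) := by simp [h2, h3]
    rw [ht, Finset.mem_singleton] at this
    rw [h4, this]
  obtain ⟨m1, m2⟩ := mp_mem hc
  have hcont : Continuous (fun x => ip h M i x - ip h M j x) := (ip_cont M i).sub (ip_cont M j)
  -- no zeros on either side: constant signs
  have hzero : ∀ x y, (ip h M i x - ip h M j x) ≤ 0 → 0 ≤ (ip h M i y - ip h M j y) →
      ∃ z ∈ Set.uIcc x y, z = mp h i j t := by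
    intro x y hx hy
    have := intermediate_value_uIcc (a := x) (b := y) (hcont.continuousOn)
    obtain ⟨z, hz1, hz2⟩ := this (show (0 : ℝ) ∈ _ by
      rw [Set.mem_uIcc]
      exact Or.inl ⟨hx, hy⟩)
    exact ⟨z, hz1, huniq z (by simpa [sub_eq_zero] using hz2)⟩
  have v0 : ∀ c, ip h M c (t : ℝ) = h t c := fun c => ip_nat htM.le
  have v1 : ∀ c, ip h M c ((t : ℝ) + 1) = h (t + 1) c := fun c => by
    have := ip_nat (h := h) (M := M) (t := t + 1) htM (i := c)
    push_cast at this
    exact this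
  refine ⟨mp h i j t, mp_eq htM hc, ?_⟩
  rcases hc with ⟨a, b⟩ | ⟨a, b⟩
  · left
    constructor
    · intro x hx
      by_contra hcon
      obtain ⟨z, hz1, hz2⟩ := hzero t x (by rw [v0, v0]; linarith) (by linarith)
      rw [Set.mem_uIcc] at hz1
      rcases hz1 with hz | hz <;> linarith [hz.1, hz.2]
    · intro x hx
      by_contra hcon
      obtain ⟨z, hz1, hz2⟩ := hzero x (t + 1) (by linarith) (by rw [v1, v1]; linarith)
      rw [Set.mem_uIcc] at hz1
      rcases hz1 with hz | hz <;> linarith [hz.1, hz.2]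
  · right
    constructor
    · intro x hx
      by_contra hcon
      obtain ⟨z, hz1, hz2⟩ := hzero x t (by linarith) (by rw [v0, v0]; linarith)
      rw [Set.mem_uIcc] at hz1
      rcases hz1 with hz | hz <;> linarith [hz.1, hz.2]
    · intro x hx
      by_contra hcon
      obtain ⟨z, hz1, hz2⟩ := hzero (t + 1) x (by rw [v1, v1]; linarith) (by linarith)
      rw [Set.mem_uIcc] at hz1
      rcases hz1 with hz | hz <;> linarith [hz.1, hz.2]

end LevelPseudo
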