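import Pool.Agent.LevelPseudo.Interp

/-!
# Vertices on a level of the interpolated family
-/

namespace LevelPseudo

variable {n : ℕ} {h : ℕ → Fin n → ℝ}

/-- the lowest elements -/
def Low (v : Fin n → ℝ) (S : Finset (Fin n)) : Prop := ∀ a ∈ S, ∀ b ∉ S, v a < v b

theorem Low.eq {v : Fin n → ℝ} {S S' : Finset (Fin n)} (h1 : Low v S) (h2 : Low v S')
    (hc : S.card = S'.card) : S = S' := by
  by_contra hne
  have : ¬ S ⊆ S' := fun hs => hne (Finset.eq_of_subset_of_card_le hs hc.ge)
  obtain ⟨a, ha, ha'⟩ := Finset.not_subset.1 this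
  have : ¬ S' ⊆ S := fun hs => hne (Finset.eq_of_subset_of_card_le hs hc.le).symm
  obtain ⟨b, hb, hb'⟩ := Finset.not_subset.1 this
  exact lt_asymm (h1 a ha b hb') (h2 b hb a ha')

/-- the lowest curve above an initial set -/
theorem exists_next {v : Fin n → ℝ} {S : Finset (Fin n)}
    (h1 : Low v S) (hk : S.card < n) : ∃ c, ∀ i, i ∈ S ↔ v i < v c := by
  classical
  have hne : (Finset.univ \ S).Nonempty := by
    rw [Finset.sdiff_nonempty]
    intro hs
    have := Finset.card_le_card hs
    rw [Finset.card_univ, Fintype.card_fin] at this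
    omega
  obtain ⟨c, hc, hmin⟩ := Finset.exists_min_image _ v hne
  have hcS : c ∉ S := (Finset.mem_sdiff.1 hc).2
  refine ⟨c, fun i => ⟨fun hi => h1 i hi c hcS, fun hi => ?_⟩⟩
  by_contra hiS
  exact absurd (hmin i (Finset.mem_sdiff.2 ⟨Finset.mem_univ _, hiS⟩)) (not_le.2 hi)

theorem level_pt {M k t : ℕ} (hinj : ∀ t ≤ M, Function.Injective (h t)) (hk : k < n)
    (ht : t < M) {S S' : Finset (Fin n)} (hS : S.card = k) (hS' : S'.card = k) (hne : S ≠ S')
    (h1 : Low (h t) S) (h2 : Low (h (t + 1)) S') :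
    ∃ p : ℝ × ℝ, (t : ℝ) < p.1 ∧ p.1 < t + 1 ∧
      p ∈ verticesT (ip h M) ∩ levelT (ip h M) k := by
  classical
  obtain ⟨c, hc⟩ := exists_next h1 (by rw [hS]; exact hk)
  -- the meeting points of `c` with the other curves
  obtain ⟨Z, hZ⟩ : ∃ Z : Finset ℝ, Z =
      (Finset.univ.filter (fun i => i ≠ c ∧ Chg h i c t)).image (fun i => mp h i c t) := ⟨_, rfl⟩
  have hZne : Z.Nonempty := by
    by_contra hcon
    rw [Finset.not_nonempty_iff_eq_empty, hZ, Finset.image_eq_empty] at hcon
    have hno : ∀ i, i ≠ c → ¬ Chg h i c t := by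
      intro i hi hch
      have : i ∈ Finset.univ.filter (fun i => i ≠ c ∧ Chg h i c t) := by simp [hi, hch]
      rw [hcon] at this
      simp at this
    apply hne
    refine (Low.eq (v := h (t + 1)) ?_ h2 (hS.trans hS'.symm))
    have key : ∀ i, i ∈ S ↔ h (t + 1) i < h (t + 1) c := by
      intro i
      by_cases hi : i = c
      · subst hi
        rw [hc]
        simp
      · have a1 : h t i ≠ h t c := fun hh => hi (hinj t ht.le hh)
        have a2 : h (t + 1) i ≠ h (t + 1) c := fun hh => hi (hinj (t + 1) ht hh)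
        have a3 := hno i hi
        rw [hc]
        constructor
        · intro a4
          by_contra a5
          exact a3 (Or.inl ⟨a4, lt_of_le_of_ne (not_lt.1 a5) (Ne.symm a2)⟩)
        · intro a4
          by_contra a5
          exact a3 (Or.inr ⟨lt_of_le_of_ne (not_lt.1 a5) (Ne.symm a1), a4⟩)
    intro a ha b hb
    have b1 := (key a).1 ha
    have b2 := (key b).not.1 hb
    linarith
  obtain ⟨x, hx⟩ : ∃ x, x = Z.min' hZne := ⟨_, rfl⟩
  have hxZ : x ∈ Z := by rw [hx]; exact Finset.min'_mem _ _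
  have hmin : ∀ z ∈ Z, x ≤ z := fun z hz => by rw [hx]; exact Finset.min'_le _ _ hz
  rw [hZ, Finset.mem_image] at hxZ
  obtain ⟨i, hi, hix⟩ := hxZ
  rw [Finset.mem_filter] at hi
  obtain ⟨-, hic, hch⟩ := hi
  obtain ⟨x1, x2⟩ := mp_mem hch
  rw [hix] at x1 x2
  have hxeq : ip h M i x = ip h M c x := by rw [← hix]; exact mp_eq ht hch
  refine ⟨(x, ip h M c x), x1, x2, ⟨i, c, hic, hxeq.symm, rfl⟩, ?_⟩
  -- the points of `c` just before
  have hbefore : ∀ y, (t : ℝ) < y → y < x → ∀ j, ip h M j y < ip h M c y ↔ j ∈ S := by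
    intro y hy1 hy2 j
    rw [hc]
    by_cases hj : j = c
    · subst hj; simp
    · have a1 : h t j ≠ h t c := fun hh => hj (hinj t ht.le hh)
      have a2 : h (t + 1) j ≠ h (t + 1) c := fun hh => hj (hinj (t + 1) ht hh)
      rw [ip_mid ht hy1.le (by linarith), ip_mid ht hy1.le (by linarith)]
      obtain ⟨θ, hθ⟩ : ∃ θ, θ = y - t := ⟨_, rfl⟩
      have t0 : 0 < θ := by linarith
      have t1 : θ < 1 := by linarith
      rw [← hθ]
      by_cases hjc : Chg h j c t
      · have hz : x ≤ mp h j c t := hmin _ (by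
          rw [hZ, Finset.mem_image]
          exact ⟨j, by simp [hj, hjc], rfl⟩)
        have hθ2 : θ < (h t j - h t c) / ((h t j - h t c) - (h (t + 1) j - h (t + 1) c)) := by
          have e : mp h j c t = t +
            (h t j - h t c) / ((h t j - h t c) - (h (t + 1) j - h (t + 1) c)) := rfl
          rw [e] at hz
          linarith
        rcases hjc with ⟨b1, b2⟩ | ⟨b1, b2⟩
        · have hd : (h t j - h t c) - (h (t + 1) j - h (t + 1) c) < 0 := by linarith
          rw [lt_div_iff_of_neg hd] at hθ2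
          constructor
          · intro _; exact b1
          · intro _; nlinarith
        · have hd : 0 < (h t j - h t c) - (h (t + 1) j - h (t + 1) c) := by linarith
          rw [lt_div_iff₀ hd] at hθ2
          constructor
          · intro hh; exfalso; nlinarith
          · intro hh; linarith
      · rcases lt_or_gt_of_ne a1 with b1 | b1
        · have b2 : h (t + 1) j < h (t + 1) c := by
            by_contra hcon
            exact hjc (Or.inl ⟨b1, lt_of_le_of_ne (not_lt.1 hcon) (Ne.symm a2)⟩)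
          constructor
          · intro _; exact b1
          · intro _
            have := mul_pos t0 (sub_pos.2 b2)
            have := mul_pos (sub_pos.2 t1) (sub_pos.2 b1)
            nlinarith
        · have b2 : h (t + 1) c < h (t + 1) j := by
            by_contra hcon
            exact hjc (Or.inr ⟨b1, lt_of_le_of_ne (not_lt.1 hcon) a2⟩)
          constructor
          · intro hh
            exfalso
            have := mul_pos t0 (sub_pos.2 b2)
            have := mul_pos (sub_pos.2 t1) (sub_pos.2 b1)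
            nlinarith
          · intro hh; linarith
  have hcl : x ∈ closure (Set.Ioo (t : ℝ) x) := by
    rw [closure_Ioo (ne_of_lt x1)]
    exact ⟨x1.le, le_rfl⟩
  refine map_mem_closure (f := fun y => (y, ip h M c y))
    (continuous_id.prodMk (ip_cont M c)) hcl ?_
  rintro y ⟨hy1, hy2⟩
  refine ⟨⟨c, rfl⟩, ?_⟩
  have : {j | ip h M j y < ip h M c y} = (S : Set (Fin n)) := by
    ext j
    exact hbefore y hy1 hy2 j
  change {j | ip h M j y < ip h M c y}.ncard = k
  rw [this, Set.ncard_coe_finset, hS]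

theorem verticesT_finite {s : ℕ} {f : Fin n → ℝ → ℝ}
    (hf : ∀ i j, i ≠ j → (common f i j).encard ≤ s) : (verticesT f).Finite := by
  have h1 : (⋃ i, ⋃ j, if i ≠ j then (fun x => (x, f i x)) '' common f i j else ∅).Finite := by
    refine Set.finite_iUnion fun i => Set.finite_iUnion fun j => ?_
    split_ifs with hij
    · exact (Set.finite_of_encard_le_coe (hf i j hij)).image _
    · exact Set.finite_empty
  refine h1.subset ?_
  rintro ⟨x, y⟩ ⟨i, j, hij, hi, hj⟩
  refine Set.mem_iUnion.2 ⟨i, Set.mem_iUnion.2 ⟨j, ?_⟩⟩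
  rw [if_pos hij]
  simp only at hi hj
  exact ⟨x, hi.symm.trans hj, by rw [hi]⟩

theorem le_psiT {s M N k : ℕ} (hinj : ∀ t ≤ M, Function.Injective (h t)) (hk : k < n)
    (hN : N ≤ M) (hs : ∀ i j, i ≠ j → (common (ip h M) i j).encard ≤ s)
    {S : ℕ → Finset (Fin n)} (hS : ∀ t ≤ N, (S t).card = k) (hne : ∀ t < N, S t ≠ S (t + 1))
    (hlow : ∀ t ≤ N, Low (h t) (S t)) : N ≤ psiT (ip h M) k := by
  classical
  have key : ∀ t : Fin N, ∃ p : ℝ × ℝ, ((t : ℕ) : ℝ) < p.1 ∧ p.1 < (t : ℕ) + 1 ∧
      p ∈ verticesT (ip h M) ∩ levelT (ip h M) k := fun t =>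
    level_pt hinj hk (lt_of_lt_of_le t.2 hN) (hS t t.2.le) (hS (t + 1) t.2) (hne t t.2)
      (hlow t t.2.le) (hlow (t + 1) t.2)
  choose p h1 h2 h3 using key
  have hpinj : Function.Injective p := by
    intro t t' htt
    have a1 := h1 t
    have a2 := h2 t
    have a3 := h1 t'
    have a4 := h2 t'
    rw [htt] at a1 a2
    have b1 : ((t : ℕ) : ℝ) < (t' : ℕ) + 1 := by linarith
    have b2 : ((t' : ℕ) : ℝ) < (t : ℕ) + 1 := by linarith
    have c1 : (t : ℕ) < t' + 1 := by exact_mod_cast b1
    have c2 : (t' : ℕ) < t + 1 := by exact_mod_cast b2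
    exact Fin.ext (by omega)
  have hfin : (verticesT (ip h M) ∩ levelT (ip h M) k).Finite :=
    (verticesT_finite hs).subset Set.inter_subset_left
  have hsub : ((Finset.univ.image p : Finset (ℝ × ℝ)) : Set (ℝ × ℝ)) ⊆
      verticesT (ip h M) ∩ levelT (ip h M) k := by
    intro q hq
    obtain ⟨t, -, rfl⟩ := Finset.mem_image.1 (Finset.mem_coe.1 hq)
    exact h3 t
  have := Set.ncard_le_ncard hsub hfin
  rw [Set.ncard_coe_finset, Finset.card_image_of_injective _ hpinj, Finset.card_univ,
    Fintype.card_fin] at this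
  exact this

end LevelPseudo
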