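import Pool.Agent.LevelPseudo.Interp2

/-!
# Heights for a sequence of sets
-/

namespace LevelPseudo

open LevelLower

/-- a number with the binary digits `b 0, ..., b (m - 1)` -/
def bin (b : ℕ → ℕ) (m : ℕ) : ℕ := ∑ r ∈ Finset.range m, b r * 2 ^ r

theorem bin_succ (b : ℕ → ℕ) (m : ℕ) : bin b (m + 1) = bin b m + b m * 2 ^ m :=
  Finset.sum_range_succ _ _

theorem bin_lt {b : ℕ → ℕ} (hb : ∀ r, b r ≤ 1) (m : ℕ) : bin b m < 2 ^ m := by
  induction m with
  | zero => simp [bin]
  | succ m ih =>
    rw [bin_succ, pow_succ]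
    have := Nat.mul_le_mul_right (2 ^ m) (hb m)
    omega

theorem bin_lt_bin {b b' : ℕ → ℕ} (hb : ∀ r, b r ≤ 1) {r₀ : ℕ}
    (h0 : b r₀ = 0) (h1 : b' r₀ = 1) (m : ℕ) (hm : r₀ < m)
    (heq : ∀ r, r₀ < r → r < m → b r = b' r) : bin b m < bin b' m := by
  induction m with
  | zero => omega
  | succ m ih =>
    rw [bin_succ, bin_succ]
    rcases Nat.lt_or_ge r₀ m with h | h
    · rw [heq m h (Nat.lt_succ_self _)]
      have := ih h (fun r h1 h2 => heq r h1 (by omega))
      omega
    · have : r₀ = m := by omega
      subst this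
      rw [h0, h1]
      have := bin_lt hb r₀
      omega

variable {n : ℕ}

/-- the letter of `i` at time `t` -/
def lt' (S : ℕ → Finset (Fin n)) (t : ℕ) (i : Fin n) : ℕ := if i ∈ S t then 0 else 1

theorem lt'_le (S : ℕ → Finset (Fin n)) (t : ℕ) (i : Fin n) : lt' S t i ≤ 1 := by
  unfold lt'; split_ifs <;> omega

/-- the key of the first order -/
def key0 (S : ℕ → Finset (Fin n)) (N : ℕ) (i : Fin n) : ℕ :=
  bin (fun r => lt' S (N - r) i) (N + 1) * n + i

/-- the heights, as natural numbers -/
def hN (S : ℕ → Finset (Fin n)) (N : ℕ) : ℕ → Fin n → ℕ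
  | 0, i => key0 S N i
  | t + 1, i => hN S N t i + lt' S (t + 1) i * (2 ^ (N + 1) * n * 2 ^ t)

theorem key0_lt (S : ℕ → Finset (Fin n)) (N : ℕ) (i : Fin n) :
    key0 S N i < 2 ^ (N + 1) * n := by
  have h1 : bin (fun r => lt' S (N - r) i) (N + 1) < 2 ^ (N + 1) :=
    bin_lt (fun r => lt'_le S _ _) _
  have h2 := i.2
  unfold key0
  have h3 := Nat.mul_le_mul_right n (Nat.succ_le_of_lt h1)
  rw [Nat.succ_mul] at h3
  omega

theorem hN_lt (S : ℕ → Finset (Fin n)) (N : ℕ) (t : ℕ) (i : Fin n) :
    hN S N t i < 2 ^ (N + 1) * n * 2 ^ t := by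
  induction t with
  | zero =>
    have := key0_lt S N i
    simpa [hN] using this
  | succ t ih =>
    have h1 := Nat.mul_le_mul_right (2 ^ (N + 1) * n * 2 ^ t) (lt'_le S (t + 1) i)
    have h2 : 2 ^ (N + 1) * n * 2 ^ (t + 1) = 2 * (2 ^ (N + 1) * n * 2 ^ t) := by ring
    unfold hN
    omega

theorem hN_succ_lt {S : ℕ → Finset (Fin n)} {N t : ℕ} {i j : Fin n}
    (hi : lt' S (t + 1) i = 0) (hj : lt' S (t + 1) j = 1) :
    hN S N (t + 1) i < hN S N (t + 1) j := by
  have h1 := hN_lt S N t i
  have e1 : hN S N (t + 1) i = hN S N t i + lt' S (t + 1) i * (2 ^ (N + 1) * n * 2 ^ t) := rfl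
  have e2 : hN S N (t + 1) j = hN S N t j + lt' S (t + 1) j * (2 ^ (N + 1) * n * 2 ^ t) := rfl
  rw [e1, e2, hi, hj]
  omega

theorem hN_succ_eq {S : ℕ → Finset (Fin n)} {N t : ℕ} {i j : Fin n}
    (h : lt' S (t + 1) i = lt' S (t + 1) j) :
    hN S N (t + 1) i < hN S N (t + 1) j ↔ hN S N t i < hN S N t j := by
  have e1 : hN S N (t + 1) i = hN S N t i + lt' S (t + 1) i * (2 ^ (N + 1) * n * 2 ^ t) := rfl
  have e2 : hN S N (t + 1) j = hN S N t j + lt' S (t + 1) j * (2 ^ (N + 1) * n * 2 ^ t) := rfl
  rw [e1, e2, h]
  omega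

theorem key0_inj (S : ℕ → Finset (Fin n)) (N : ℕ) : Function.Injective (key0 S N) := by
  intro i j hij
  unfold key0 at hij
  have h1 := congrArg (fun x => x % n) hij
  simp only [Nat.mul_add_mod_self_right, Nat.mod_eq_of_lt i.2, Nat.mod_eq_of_lt j.2] at h1
  exact Fin.ext h1

theorem hN_inj (S : ℕ → Finset (Fin n)) (N t : ℕ) : Function.Injective (hN S N t) := by
  induction t with
  | zero => exact key0_inj S N
  | succ t ih =>
    intro i j hij
    have h1 := lt'_le S (t + 1) i
    have h2 := lt'_le S (t + 1) j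
    rcases Nat.lt_trichotomy (lt' S (t + 1) i) (lt' S (t + 1) j) with h | h | h
    · have := hN_succ_lt (N := N) (show lt' S (t + 1) i = 0 by omega)
        (show lt' S (t + 1) j = 1 by omega)
      omega
    · apply ih
      have e1 : hN S N (t + 1) i =
        hN S N t i + lt' S (t + 1) i * (2 ^ (N + 1) * n * 2 ^ t) := rfl
      have e2 : hN S N (t + 1) j =
        hN S N t j + lt' S (t + 1) j * (2 ^ (N + 1) * n * 2 ^ t) := rfl
      rw [e1, e2, h] at hij
      omega
    · have := hN_succ_lt (N := N) (show lt' S (t + 1) j = 0 by omega)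
        (show lt' S (t + 1) i = 1 by omega)
      omega

/-- the first order is given by the first difference -/
theorem key0_lt_of {S : ℕ → Finset (Fin n)} {N u : ℕ} (hu : u ≤ N) {i j : Fin n}
    (hi : lt' S u i = 0) (hj : lt' S u j = 1) (heq : ∀ t < u, lt' S t i = lt' S t j) :
    key0 S N i < key0 S N j := by
  have h1 : bin (fun r => lt' S (N - r) i) (N + 1) < bin (fun r => lt' S (N - r) j) (N + 1) := by
    refine bin_lt_bin (fun r => lt'_le S _ _) (r₀ := N - u) ?_ ?_ _ (by omega) ?_
    · have : N - (N - u) = u := by omega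
      simp only [this, hi]
    · have : N - (N - u) = u := by omega
      simp only [this, hj]
    · intro r h1 h2
      exact heq _ (by omega)
  have h2 := i.2
  unfold key0
  have h3 := Nat.mul_le_mul_right n (Nat.succ_le_of_lt h1)
  rw [Nat.succ_mul] at h3
  omega

theorem low_hN (S : ℕ → Finset (Fin n)) (N t : ℕ) (i j : Fin n) (hi : i ∈ S t) (hj : j ∉ S t) :
    hN S N t i < hN S N t j := by
  have h1 : lt' S t i = 0 := if_pos hi
  have h2 : lt' S t j = 1 := if_neg hj
  cases t with
  | zero => exact key0_lt_of (Nat.zero_le N) h1 h2 (fun t ht => absurd ht (Nat.not_lt_zero _))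
  | succ t => exact hN_succ_lt h1 h2

/-- the number of changes -/
noncomputable def nch (h : ℕ → Fin n → ℝ) (i j : Fin n) (t : ℕ) : ℕ := by
  classical exact ((Finset.range t).filter (fun t => Chg h i j t)).card

theorem nch_succ (h : ℕ → Fin n → ℝ) (i j : Fin n) (t : ℕ) :
    nch h i j (t + 1) = nch h i j t + (by classical exact if Chg h i j t then 1 else 0) := by
  classical
  unfold nch
  rw [Finset.range_add_one, Finset.filter_insert]
  split_ifs with h1
  · rw [Finset.card_insert_of_notMem (by simp)]
  · rfl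

/-- the real heights -/
noncomputable def hR (S : ℕ → Finset (Fin n)) (N t : ℕ) (i : Fin n) : ℝ := hN S N t i

theorem hR_lt {S : ℕ → Finset (Fin n)} {N t : ℕ} {i j : Fin n} :
    hR S N t i < hR S N t j ↔ hN S N t i < hN S N t j := Nat.cast_lt

theorem hR_inj (S : ℕ → Finset (Fin n)) (N t : ℕ) : Function.Injective (hR S N t) :=
  fun _ _ h => hN_inj S N t (Nat.cast_injective h)

theorem chg_hR {S : ℕ → Finset (Fin n)} {N t : ℕ} {i j : Fin n} (hij : i ≠ j) :
    Chg (hR S N) i j t ↔ ¬ (hN S N t i < hN S N t j ↔ hN S N (t + 1) i < hN S N (t + 1) j) := by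
  have h1 : hN S N t i ≠ hN S N t j := fun h => hij (hN_inj S N t h)
  have h2 : hN S N (t + 1) i ≠ hN S N (t + 1) j := fun h => hij (hN_inj S N (t + 1) h)
  unfold Chg
  simp only [hR_lt]
  omega

theorem no_change {S : ℕ → Finset (Fin n)} {N t : ℕ} {i j : Fin n} (hij : i ≠ j)
    (h : lt' S (t + 1) i = lt' S (t + 1) j) : ¬ Chg (hR S N) i j t := by
  rw [chg_hR hij, hN_succ_eq h]
  simp

theorem nch_le {S : ℕ → Finset (Fin n)} {N s p : ℕ} {i j : Fin n} (hij : i ≠ j)
    (hp : Ph (fun t => (if i ∈ S t then 1 else 0) - (if j ∈ S t then 1 else 0))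
      0 (N + 1) p (p + s)) : nch (hR S N) i j N ≤ s := by
  obtain ⟨φ, f1, f2, f3⟩ := hp
  -- the statuses
  have hpos : ∀ t ≤ N, lt' S t i = 0 → lt' S t j = 1 → Even (φ t) := by
    intro t ht h1 h2
    have a1 : i ∈ S t := by
      by_contra hcon
      simp [lt', hcon] at h1
    have a2 : j ∉ S t := by
      intro hcon
      simp [lt', hcon] at h2
    have := f3 t (Nat.zero_le _) (by omega)
    dsimp only at this
    rw [if_pos a1, if_neg a2] at this
    by_contra hodd
    rw [Nat.not_even_iff_odd] at hodd
    rw [hodd.neg_one_pow] at this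
    norm_num at this
  have hneg : ∀ t ≤ N, lt' S t i = 1 → lt' S t j = 0 → ¬ Even (φ t) := by
    intro t ht h1 h2 heven
    have a1 : i ∉ S t := by
      intro hcon
      simp [lt', hcon] at h1
    have a2 : j ∈ S t := by
      by_contra hcon
      simp [lt', hcon] at h2
    have := f3 t (Nat.zero_le _) (by omega)
    dsimp only at this
    rw [if_neg a1, if_pos a2, heven.neg_one_pow] at this
    norm_num at this
  by_cases hex : ∃ u, u ≤ N ∧ lt' S u i ≠ lt' S u j
  · classical
    -- the first difference
    obtain ⟨u, ⟨huN, hu⟩, hfirst⟩ : ∃ u, (u ≤ N ∧ lt' S u i ≠ lt' S u j) ∧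
        ∀ t < u, lt' S t i = lt' S t j := by
      refine ⟨Nat.find hex, Nat.find_spec hex, fun t ht => ?_⟩
      have := Nat.find_min hex ht
      by_contra hne
      exact this ⟨by have := (Nat.find_spec hex).1; omega, hne⟩
    have hi := lt'_le S u i
    have hj := lt'_le S u j
    have hstart : ∀ t ≤ u, nch (hR S N) i j t = 0 ∧
        (hN S N t i < hN S N t j ↔ hN S N 0 i < hN S N 0 j) ∨ t = u := by
      intro t
      induction t with
      | zero =>
        intro _
        left
        exact ⟨by simp [nch], Iff.rfl⟩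
      | succ t ih =>
        intro ht
        rcases Nat.eq_or_lt_of_le ht with h | h
        · right; exact h
        · left
          rcases ih (by omega) with ⟨h1, h2⟩ | h1
          · have h3 := hfirst (t + 1) h
            refine ⟨?_, (hN_succ_eq h3).trans h2⟩
            rw [nch_succ, h1, if_neg (no_change hij h3)]
          · omega
    have h0 : (hN S N 0 i < hN S N 0 j) ↔ Even (φ u) := by
      rcases Nat.lt_or_ge (lt' S u i) (lt' S u j) with h | h
      · have a1 := hpos u huN (by omega) (by omega)
        have a2 : hN S N 0 i < hN S N 0 j := key0_lt_of huN (by omega) (by omega) hfirst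
        exact ⟨fun _ => a1, fun _ => a2⟩
      · have a1 := hneg u huN (by omega) (by omega)
        have a2 : hN S N 0 j < hN S N 0 i := key0_lt_of huN (by omega) (by omega)
          (fun t ht => (hfirst t ht).symm)
        exact ⟨fun h => absurd h (lt_asymm a2), fun h => absurd h a1⟩
    have hu0 : nch (hR S N) i j u = 0 ∧ (hN S N u i < hN S N u j ↔ Even (φ u)) := by
      have hsame : hN S N u i < hN S N u j ↔ Even (φ u) := by
        rcases Nat.lt_or_ge (lt' S u i) (lt' S u j) with h | h
        · have a1 := hpos u huN (by omega) (by omega)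
          refine ⟨fun _ => a1, fun _ => low_hN S N u i j ?_ ?_⟩
          · by_contra hcon
            have : lt' S u i = 1 := if_neg hcon
            omega
          · intro hcon
            have : lt' S u j = 0 := if_pos hcon
            omega
        · have a1 := hneg u huN (by omega) (by omega)
          have a2 : hN S N u j < hN S N u i := by
            refine low_hN S N u j i ?_ ?_
            · by_contra hcon
              have : lt' S u j = 1 := if_neg hcon
              omega
            · intro hcon
              have : lt' S u i = 0 := if_pos hcon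
              omega
          exact ⟨fun h => absurd h (lt_asymm a2), fun h => absurd h a1⟩
      refine ⟨?_, hsame⟩
      cases u with
      | zero => simp [nch]
      | succ u =>
        rcases hstart u (Nat.le_succ u) with ⟨h1, h2⟩ | h1
        · rw [nch_succ, h1, if_neg]
          rw [chg_hR hij, h2, h0, hsame]
          simp
        · omega
    have hmain : ∀ t, u ≤ t → t ≤ N → ∃ m, u ≤ m ∧ m ≤ t ∧
        (hN S N t i < hN S N t j ↔ Even (φ m)) ∧ nch (hR S N) i j t + φ u ≤ φ m := by
      intro t ht
      induction t, ht using Nat.le_induction with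
      | base => exact fun _ => ⟨u, le_rfl, le_rfl, hu0.2, by rw [hu0.1]; omega⟩
      | succ t ht ih =>
        intro htN
        obtain ⟨m, m1, m2, m3, m4⟩ := ih (by omega)
        by_cases hd : lt' S (t + 1) i = lt' S (t + 1) j
        · refine ⟨m, m1, by omega, (hN_succ_eq hd).trans m3, ?_⟩
          rw [nch_succ, if_neg (no_change hij hd)]
          exact m4
        · have b1 := lt'_le S (t + 1) i
          have b2 := lt'_le S (t + 1) j
          have hsame : hN S N (t + 1) i < hN S N (t + 1) j ↔ Even (φ (t + 1)) := by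
            rcases Nat.lt_or_ge (lt' S (t + 1) i) (lt' S (t + 1) j) with h | h
            · have a1 := hpos (t + 1) htN (by omega) (by omega)
              exact ⟨fun _ => a1, fun _ => hN_succ_lt (by omega) (by omega)⟩
            · have a1 := hneg (t + 1) htN (by omega) (by omega)
              have a2 : hN S N (t + 1) j < hN S N (t + 1) i := hN_succ_lt (by omega) (by omega)
              exact ⟨fun h => absurd h (lt_asymm a2), fun h => absurd h a1⟩
          have hmono : φ m ≤ φ (t + 1) := f1 (by omega)
          refine ⟨t + 1, by omega, le_rfl, hsame, ?_⟩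
          rw [nch_succ]
          split_ifs with hch
          · rw [chg_hR hij, m3, hsame] at hch
            have : φ m ≠ φ (t + 1) := fun h => hch (by rw [h])
            omega
          · omega
    obtain ⟨m, -, -, -, m4⟩ := hmain N huN le_rfl
    have := (f2 u).1
    have := (f2 m).2
    omega
  · push Not at hex
    have : ∀ t ≤ N, nch (hR S N) i j t = 0 := by
      intro t
      induction t with
      | zero => intro _; simp [nch]
      | succ t ih =>
        intro ht
        rw [nch_succ, ih (by omega), if_neg (no_change hij (hex (t + 1) ht))]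
    rw [this N le_rfl]
    exact Nat.zero_le _

end LevelPseudo
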