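import Pool.Agent.LevelPseudo.FromTrace

/-!
# Sequences of sets from the recursion, and growth
-/

open LevelLower LevelPseudo

namespace LevelRec

namespace Prm

variable {p : Prm}

theorem main_kseq {q : ℕ} (hc : p.c0 < p.D) (hsg : Odd p.sg) (hX : 2 * p.w < p.X)
    (hm : 0 < p.m) (hg : 0 < p.g) (hq : 0 < q) (hal : ∀ k, ∑ i, p.al k i = 0) (hsh : p.Shift)
    (hspeed : ∀ k (κ κ' : ℕ → Fin p.g) t, κ' k < κ k → 2 * ((p.m : ℤ) * p.W k) ≤
      q * ((zeta p.al p.D p.c0 (k + 1) κ (t + 1) - zeta p.al p.D p.c0 (k + 1) κ' (t + 1)) -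
        (zeta p.al p.D p.c0 (k + 1) κ t - zeta p.al p.D p.c0 (k + 1) κ' t)))
    {S : List (SStep (Role p.g p.m))} (hS : Seed p.g p.m p.D p.sg S) (K : ℕ) :
    ∃ T, S.countP (fun e => e.2) * ((p.X - 2 * p.w) * S.countP (fun e => e.2)) ^ K ≤ T ∧
      KSeq (q * (p.sg + 1) - 1) (2 * (p.g * p.m) * (p.g * p.m * p.X) ^ K) T := by
  classical
  have hX0 : 0 < p.X := by omega
  set P : ℕ → Fin p.g := fun _ => ⟨0, hg⟩ with hP
  have hd : Disjoint (p.grp false P K 0 0) (p.grp true P K 0 0) := by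
    rw [Finset.disjoint_left]
    intro c h1 h2
    have := ((mem_grp p).1 h1).1.symm.trans ((mem_grp p).1 h2).1
    simp at this
  obtain ⟨L, s1, s2⟩ := es_step hc hsg hX0 hm hal hS
    (ex_all hc hsg hX.le hX0 hm hal hsh hS K) false P 0 0 true P 0 0 hd
  refine ⟨L.length, s2, ?_⟩
  have hcU := p.card_grp hal false P K 0 0
  have hcW := p.card_grp hal true P K 0 0
  have hcard : (p.grp false P K 0 0).card = (p.grp true P K 0 0).card := by
    exact_mod_cast hcU.trans hcW.symm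
  have hcU' : (p.grp false P K 0 0).card = p.g * p.m * (p.g * p.m * p.X) ^ K := by
    have : ((p.grp false P K 0 0).card : ℤ) = ((p.g * p.m * (p.g * p.m * p.X) ^ K : ℕ) : ℤ) := by
      rw [hcU]
      unfold W
      push_cast
      rw [mul_pow, mul_pow, mul_pow, pow_succ]
      ring
    exact_mod_cast this
  have h1s : 1 ≤ q * (p.sg + 1) := Nat.mul_pos hq (Nat.succ_pos _)
  have hside : ∀ u v, (u ∈ p.grp false P K 0 0 ∧ v ∈ p.grp false P K 0 0 ∨
      u ∈ p.grp true P K 0 0 ∧ v ∈ p.grp true P K 0 0) → u.sd = v.sd ∧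
      (∀ i, K + 1 ≤ i → u.ka i = v.ka i) ∧
      p.PP (K + 1) 0 (p.grp false P K 0 0) (p.grp true P K 0 0) L u v := by
    rintro u v (⟨hu, hv⟩ | ⟨hu, hv⟩)
    · have mu := (mem_grp p).1 hu
      have mv := (mem_grp p).1 hv
      exact ⟨mu.1.trans mv.1.symm, fun i hi => (mu.2.1 i hi).trans (mv.2.1 i hi).symm,
        s1.ppU u hu v hv⟩
    · have mu := (mem_grp p).1 hu
      have mv := (mem_grp p).1 hv
      exact ⟨mu.1.trans mv.1.symm, fun i hi => (mu.2.1 i hi).trans (mv.2.1 i hi).symm,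
        s1.ppW u hu v hv⟩
  have := toKSeq (s := q * (p.sg + 1) - 1) hd s1.xt Lt ?_ ?_ ?_
  · refine this.toFin ?_
    rw [Fintype.card_coe, Finset.card_union_of_disjoint hd, ← hcard, hcU']
    apply le_of_eq
    ring
  · intro u v huv hne
    obtain ⟨a1, a2, -⟩ := hside u v huv
    exact Lt.total a1 a2 hne
  · intro u v huv hlt
    obtain ⟨a1, a2, a3⟩ := hside u v huv
    rcases hlt with ⟨j, h1, h2⟩ | ⟨h1, h2⟩
    · have hj : j < K + 1 := by
        by_contra hcon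
        rw [a2 j (by omega)] at h2
        exact lt_irrefl _ h2
      obtain ⟨ψ, h3, h4⟩ := exists_good hX0 hm hq hsg hspeed (K + 1) j hj h1 h2
      intro x hx
      refine ((a3.1 ψ h3 x hx).mono_left (h4 _).1).mono_right ?_
      have := (h4 (0 + 1)).2
      omega
    · intro x hx
      refine ac_nonpos ⟨1, odd_one, le_rfl, by omega⟩ (fun y hy => ?_)
      have := a3.2 h1 h2.le x hx y hy
      omega
  · intro u hu v hv x hx
    refine (s1.cross u hu v hv 1 odd_one x hx).mono_right ?_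
    have : p.sg + 1 ≤ q * (p.sg + 1) := Nat.le_mul_of_pos_left _ hq
    omega

end Prm

/-- **The recursion.** A seed gives sequences of sets of all sizes. -/
theorem rec_kseq {g m m' q X D c0 c1 w N₀ N₁ sg : ℕ} {S : List (SStep (Role g m))}
    (hS : Seed g m D sg S) (hm : m = q * m') (hm0 : 0 < m) (hg : 0 < g) (hN : 0 < N₀)
    (hcD : c0 < D) (hc0 : c0 ≤ c1) (hc1 : D ≤ c0 + c1 + 1)
    (h1 : N₀ * ((g - 1) * m') + g * (D * N₁) ≤ N₁ * (X * m))
    (h2 : c1 * (N₀ * ((g - 1) * m') + g * (D * N₁)) ≤ w * m * N₀) (hsg : Odd sg)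
    (hX : 2 * w < X) (K : ℕ) :
    ∃ T, (S.countP (fun e => e.2)) * ((X - 2 * w) * S.countP (fun e => e.2)) ^ K ≤ T ∧
      KSeq (q * (sg + 1) - 1) (2 * (g * m) * (g * m * X) ^ K) T := by
  obtain ⟨al, a1, a2, a3⟩ := exists_speeds (X := X) (D := D) (c0 := c0) (c1 := c1) (w := w)
    hm hg hN hc0 hc1 h1 h2
  have hq : 0 < q := by
    rcases Nat.eq_zero_or_pos q with h | h
    · rw [h, Nat.zero_mul] at hm
      omega
    · exact h
  exact Prm.main_kseq (p := ⟨g, m, X, w, D, c0, sg, al⟩) hcD hsg hX hm0 hg hq a1 a2 a3 hS K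

theorem kseq33 (K : ℕ) : ∃ T, 33 * 4059 ^ K ≤ T ∧ KSeq 1 (20 * 1410 ^ K) T := by
  have h := rec_kseq (X := 141) (c0 := 2) (c1 := 2) (w := 9) (N₀ := 25) (N₁ := 1) (q := 1)
    (m' := 2) seed33_seed (by norm_num) (by norm_num) (by norm_num) (by norm_num) (by norm_num)
    (by norm_num) (by norm_num) (by norm_num) (by norm_num) odd_one (by norm_num) K
  rw [countP_seed33] at h
  norm_num at h
  exact h

end LevelRec

namespace LevelPseudo

open Filter Topology in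
theorem growthK {s h H R C a b : ℕ} (hC : 0 < C) (hH : 2 ≤ H) (hh : 0 < h)
    (hsys : ∀ K, ∃ T, C * R ^ K ≤ T ∧ KSeq s (h * H ^ K) T) (hb : 0 < b)
    (hR : H ^ a < R ^ b) :
    ∃ n₀ : ℕ, ∀ n ≥ n₀, ∃ N : ℕ, 1 ≤ N ∧ (n : ℝ) ^ ((a : ℝ) / b) ≤ N ∧ KSeq s n N := by
  have hH0 : (0 : ℝ) < H := by
    have : 0 < H := by omega
    exact_mod_cast this
  have hh0 : (0 : ℝ) < h := by exact_mod_cast hh
  have hC0 : (0 : ℝ) < C := by exact_mod_cast hC
  have hb0 : (0 : ℝ) < b := by exact_mod_cast hb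
  have he0 : 0 ≤ (a : ℝ) / b := by positivity
  have hr0 : 0 < (H : ℝ) ^ ((a : ℝ) / b) := Real.rpow_pos_of_pos hH0 _
  have hrR : (H : ℝ) ^ ((a : ℝ) / b) < R := by
    have e1 : ((H : ℝ) ^ ((a : ℝ) / b)) ^ b = (H : ℝ) ^ a := by
      rw [← Real.rpow_natCast, ← Real.rpow_mul hH0.le, div_mul_cancel₀ _ hb0.ne',
        Real.rpow_natCast]
    have e2 : ((H : ℝ) ^ ((a : ℝ) / b)) ^ b < (R : ℝ) ^ b := by
      rw [e1]
      exact_mod_cast hR
    exact lt_of_pow_lt_pow_left₀ b (Nat.cast_nonneg R) e2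
  have hR0 : (0 : ℝ) < R := hr0.trans hrR
  have hRpos : 0 < R := by exact_mod_cast hR0
  have hlim : Tendsto (fun K : ℕ => ((h * H : ℕ) : ℝ) ^ ((a : ℝ) / b) *
      ((H : ℝ) ^ ((a : ℝ) / b) / R) ^ K) atTop (𝓝 0) := by
    have h1 := tendsto_pow_atTop_nhds_zero_of_lt_one (r := (H : ℝ) ^ ((a : ℝ) / b) / R)
      (by positivity) ((div_lt_one hR0).2 hrR)
    have h2 := h1.const_mul (((h * H : ℕ) : ℝ) ^ ((a : ℝ) / b))
    rwa [mul_zero] at h2
  obtain ⟨K₀, hK₀⟩ := eventually_atTop.1 (hlim.eventually_le_const hC0)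
  refine ⟨h * H ^ K₀, fun n hn => ?_⟩
  have hex : ∃ K, n < h * H ^ (K + 1) := by
    refine ⟨n, ?_⟩
    have h1 : n + 1 < H ^ (n + 1) := Nat.lt_pow_self (by omega)
    calc n < H ^ (n + 1) := by omega
      _ ≤ h * H ^ (n + 1) := Nat.le_mul_of_pos_left _ hh
  classical
  obtain ⟨K, hK1, hK2⟩ : ∃ K, n < h * H ^ (K + 1) ∧ ∀ j < K, ¬ n < h * H ^ (j + 1) :=
    ⟨Nat.find hex, Nat.find_spec hex, fun j hj => Nat.find_min hex hj⟩
  have hKK : K₀ ≤ K := by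
    by_contra hcon
    have h1 : h * H ^ (K + 1) ≤ h * H ^ K₀ :=
      Nat.mul_le_mul_left _ (Nat.pow_le_pow_right (by omega) (by omega))
    omega
  have hle : h * H ^ K ≤ n := by
    rcases K with _ | K
    · have : h * H ^ 0 ≤ h * H ^ K₀ :=
        Nat.mul_le_mul_left _ (Nat.pow_le_pow_right (by omega) (by omega))
      omega
    · have := hK2 K (by omega)
      omega
  obtain ⟨T, hT, hsysT⟩ := hsys K
  have hTpos : 0 < T := lt_of_lt_of_le (by positivity) hT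
  refine ⟨T, hTpos, ?_, hsysT.mono le_rfl hle le_rfl⟩
  have h1 : (n : ℝ) ^ ((a : ℝ) / b) ≤ ((h * H : ℕ) : ℝ) ^ ((a : ℝ) / b) *
      ((H : ℝ) ^ ((a : ℝ) / b)) ^ K := by
    have h2 : (n : ℝ) ≤ ((h * H : ℕ) : ℝ) * (H : ℝ) ^ K := by
      have h3 : n ≤ (h * H) * H ^ K := by
        have : h * H ^ (K + 1) = (h * H) * H ^ K := by ring
        omega
      exact_mod_cast h3
    calc (n : ℝ) ^ ((a : ℝ) / b) ≤ (((h * H : ℕ) : ℝ) * (H : ℝ) ^ K) ^ ((a : ℝ) / b) :=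
          Real.rpow_le_rpow (Nat.cast_nonneg _) h2 he0
      _ = ((h * H : ℕ) : ℝ) ^ ((a : ℝ) / b) * ((H : ℝ) ^ K) ^ ((a : ℝ) / b) :=
          Real.mul_rpow (Nat.cast_nonneg _) (by positivity)
      _ = ((h * H : ℕ) : ℝ) ^ ((a : ℝ) / b) * ((H : ℝ) ^ ((a : ℝ) / b)) ^ K := by
          rw [← Real.rpow_natCast (H : ℝ) K, ← Real.rpow_natCast ((H : ℝ) ^ ((a : ℝ) / b)) K,
            ← Real.rpow_mul hH0.le, ← Real.rpow_mul hH0.le, mul_comm (K : ℝ)]
  have h4 := hK₀ K hKK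
  rw [div_pow, ← mul_div_assoc, div_le_iff₀ (by positivity)] at h4
  calc (n : ℝ) ^ ((a : ℝ) / b) ≤ C * (R : ℝ) ^ K := h1.trans h4
    _ ≤ T := by exact_mod_cast hT

/-- sequences for `s = 1` -/
theorem kseq_one : ∃ n₀ : ℕ, ∀ n ≥ n₀, ∃ N : ℕ, 1 ≤ N ∧ (n : ℝ) ^ (8 / 7 : ℝ) ≤ N ∧
    KSeq 1 n N := by
  obtain ⟨n₀, h⟩ := growthK (s := 1) (h := 20) (H := 1410) (R := 4059) (C := 33) (a := 8) (b := 7)
    (by norm_num) (by norm_num) (by norm_num) LevelRec.kseq33 (by norm_num) (by norm_num)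
  refine ⟨n₀, fun n hn => ?_⟩
  have := h n hn
  push_cast at this
  exact this

end LevelPseudo
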