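import Pool.Agent.LevelPseudo.Orders

/-!
# From sequences of sets to families of functions on the line
-/

namespace LevelPseudo

open LevelLower

variable {n : ℕ}

theorem nch_eq (h : ℕ → Fin n → ℝ) (i j : Fin n) (t : ℕ) [DecidablePred (Chg h i j)] :
    ((Finset.range t).filter (fun t => Chg h i j t)).card = nch h i j t := by
  unfold nch
  congr

/-- Families of functions with at most `s` common points. -/
theorem total_of_seq {s N : ℕ} (h : KSeq s n N) (hN : 1 ≤ N) :
    ∃ f : Fin n → ℝ → ℝ, (∀ i, Continuous (f i)) ∧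
      (∀ i j, i ≠ j → (common f i j).encard ≤ s) ∧ ∃ k < n, N ≤ psiT f k := by
  classical
  obtain ⟨k, S, h1, h2, h3⟩ := h
  have hk : k < n := by
    by_contra hcon
    have e : ∀ t ≤ N, S t = Finset.univ := fun t ht => by
      apply Finset.eq_univ_of_card
      have := (S t).card_le_univ
      rw [Fintype.card_fin] at this ⊢
      rw [h1 t ht] at this ⊢
      omega
    exact h2 0 (by omega) ((e 0 (by omega)).trans (e 1 (by omega)).symm)
  have hinj : ∀ t ≤ N, Function.Injective (hR S N t) := fun t _ => hR_inj S N t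
  have hs : ∀ i j, i ≠ j → (common (ip (hR S N) N) i j).encard ≤ s := by
    intro i j hij
    obtain ⟨p, hp⟩ := h3 i j hij
    refine (common_card hinj hij).trans ?_
    rw [nch_eq]
    exact_mod_cast nch_le hij hp
  refine ⟨ip (hR S N) N, fun i => ip_cont N i, hs, k, hk, ?_⟩
  exact le_psiT hinj hk le_rfl hs h1 h2
    (fun t _ a ha b hb => hR_lt.2 (low_hN S N t a b ha hb))

/-- the heights for pseudolines: at the end everything is reversed -/
noncomputable def hP (S : ℕ → Finset (Fin n)) (N t : ℕ) (i : Fin n) : ℝ :=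
  if t ≤ N then hR S N t i else - hR S N 0 i

theorem hP_inj (S : ℕ → Finset (Fin n)) (N t : ℕ) : Function.Injective (hP S N t) := by
  intro i j hij
  unfold hP at hij
  split_ifs at hij
  · exact hR_inj S N t hij
  · exact hR_inj S N 0 (neg_injective hij)

theorem chg_hP {S : ℕ → Finset (Fin n)} {N t : ℕ} (ht : t < N) (i j : Fin n) :
    Chg (hP S N) i j t ↔ Chg (hR S N) i j t := by
  have h1 : t ≤ N := by omega
  have h2 : t + 1 ≤ N := by omega
  unfold Chg hP
  simp only [h1, h2, if_true]

theorem nch_hP {S : ℕ → Finset (Fin n)} {N : ℕ} (i j : Fin n) (t : ℕ) (ht : t ≤ N) :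
    nch (hP S N) i j t = nch (hR S N) i j t := by
  classical
  unfold nch
  congr 1
  refine Finset.filter_congr fun u hu => ?_
  rw [Finset.mem_range] at hu
  exact chg_hP (by omega) i j

theorem nch_parity {S : ℕ → Finset (Fin n)} {N : ℕ} {i j : Fin n} (hij : i ≠ j) (t : ℕ) :
    Even (nch (hR S N) i j t) ↔
      (hN S N 0 i < hN S N 0 j ↔ hN S N t i < hN S N t j) := by
  induction t with
  | zero => simp [nch]
  | succ t ih =>
    rw [nch_succ]
    split_ifs with h
    · rw [chg_hR hij] at h
      rw [Nat.even_add_one, ih]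
      tauto
    · rw [chg_hR hij, not_not] at h
      rw [add_zero, ih, h]

theorem nch_one {S : ℕ → Finset (Fin n)} {N p : ℕ} {i j : Fin n} (hij : i ≠ j)
    (hp : Ph (fun t => (if i ∈ S t then 1 else 0) - (if j ∈ S t then 1 else 0))
      0 (N + 1) p (p + 1)) : nch (hP S N) i j (N + 1) = 1 := by
  have h1 := nch_le hij hp
  have h2 := nch_parity (S := S) (N := N) hij N
  have n0 : hN S N 0 i ≠ hN S N 0 j := fun h => hij (hN_inj S N 0 h)
  have n1 : hN S N N i ≠ hN S N N j := fun h => hij (hN_inj S N N h)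
  have h3 : Chg (hP S N) i j N ↔ (hN S N 0 i < hN S N 0 j ↔ hN S N N i < hN S N N j) := by
    unfold Chg hP
    have a1 : ¬ N + 1 ≤ N := by omega
    simp only [le_refl, a1, if_true, if_false, neg_lt_neg_iff, hR_lt]
    omega
  rw [nch_succ, nch_hP i j N le_rfl]
  rcases Nat.eq_zero_or_pos (nch (hR S N) i j N) with h | h
  · rw [h] at h2
    rw [h, if_pos (h3.2 (h2.1 Even.zero))]
  · have : nch (hR S N) i j N = 1 := by omega
    rw [this] at h2 ⊢
    rw [if_neg]
    intro hch
    have := h2.2 (h3.1 hch)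
    norm_num at this

/-- **Pseudolines.** -/
theorem lines_of_seq {N : ℕ} (h : KSeq 1 n N) (hN : 1 ≤ N) :
    ∃ f : Fin n → ℝ → ℝ, (∀ i, Continuous (f i)) ∧
      (∀ i j, i ≠ j → ∃ x, Crosses (f i) (f j) x) ∧ ∃ k < n, N ≤ psiT f k := by
  classical
  obtain ⟨k, S, h1, h2, h3⟩ := h
  have hk : k < n := by
    by_contra hcon
    have e : ∀ t ≤ N, S t = Finset.univ := fun t ht => by
      apply Finset.eq_univ_of_card
      have := (S t).card_le_univ
      rw [Fintype.card_fin] at this ⊢
      rw [h1 t ht] at this ⊢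
      omega
    exact h2 0 (by omega) ((e 0 (by omega)).trans (e 1 (by omega)).symm)
  have hinj : ∀ t ≤ N + 1, Function.Injective (hP S N t) := fun t _ => hP_inj S N t
  have hone : ∀ i j, i ≠ j → nch (hP S N) i j (N + 1) = 1 := by
    intro i j hij
    obtain ⟨p, hp⟩ := h3 i j hij
    exact nch_one hij hp
  have hs : ∀ i j, i ≠ j → (common (ip (hP S N) (N + 1)) i j).encard ≤ (1 : ℕ) := by
    intro i j hij
    refine (common_card hinj hij).trans ?_
    rw [nch_eq, hone i j hij]
  refine ⟨ip (hP S N) (N + 1), fun i => ip_cont _ i, fun i j hij => ?_, k, hk, ?_⟩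
  · refine crosses hinj hij ?_
    rw [nch_eq, hone i j hij]
  · refine le_psiT hinj hk (Nat.le_succ N) hs h1 h2 (fun t ht a ha b hb => ?_)
    unfold hP
    rw [if_pos ht, if_pos ht]
    exact hR_lt.2 (low_hN S N t a b ha hb)

end LevelPseudo
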